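import Pool.Agent.Lib_MP_a23b08_t1.Defs

/-!
# T1-Ext: elementary properties of the extension closure `Filt P`
-/

set_option backward.defeqAttrib.useBackward true
set_option backward.isDefEq.respectTransparency false

open CategoryTheory CategoryTheory.Limits CategoryTheory.Triangulated CategoryTheory.Pretriangulated

universe v u

namespace EGr

variable {D : Type u} [Category.{v} D] [Preadditive D] [HasZeroObject D] [HasShift D ℤ]
  [∀ n : ℤ, (shiftFunctor D n).Additive] [Pretriangulated D]

open ZeroObject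

theorem Filt.of_iso {P : D → Prop} {X Y : D} (e : X ≅ Y) (hX : Filt P X) : Filt P Y := by
  induction hX generalizing Y with
  | zero X hX => exact Filt.zero _ (hX.of_iso e.symm)
  | ext A B Z f g h hT hA hZ ih =>
    refine Filt.ext A Y Z (f ≫ e.hom) (e.inv ≫ g) h ?_ hA hZ
    exact isomorphic_distinguished _ hT _ (Triangle.isoMk _ _ (Iso.refl _) e.symm (Iso.refl _)
      (by simp) (by simp) (by simp))

instance (P : D → Prop) : ObjectProperty.IsClosedUnderIsomorphisms (C := D) (Filt P) where
  of_iso e h := Filt.of_iso e h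

theorem Filt.of_mem {P : D → Prop} {X : D} (hX : P X) : Filt P X := by
  refine Filt.ext (0 : D) X X 0 (𝟙 X) 0 ?_ (Filt.zero _ (isZero_zero D)) hX
  refine isomorphic_distinguished _ (inv_rot_of_distTriang _ (contractible_distinguished X)) _ ?_
  exact Triangle.isoMk _ _ (IsZero.iso (isZero_zero D) ((shiftFunctor D (-1 : ℤ)).map_isZero (isZero_zero D)))
    (Iso.refl _) (Iso.refl _) (by simp) (by simp) (by simp)

theorem Filt.mono {P Q : D → Prop} (h : ∀ X, P X → Q X) {X : D} (hX : Filt P X) : Filt Q X := by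
  induction hX with
  | zero X hX => exact Filt.zero _ hX
  | ext A X B f g h' hT _ hB ih => exact Filt.ext A X B f g h' hT ih (h _ hB)

/-- the extension closure is closed under extensions -/
theorem Filt.ext₂ [IsTriangulated D] {P : D → Prop} {X Y Z : D} (f : X ⟶ Y) (g : Y ⟶ Z)
    (h : Z ⟶ X⟦(1 : ℤ)⟧) (hT : Triangle.mk f g h ∈ distTriang D) (hX : Filt P X) (hZ : Filt P Z) :
    Filt P Y := by
  induction hZ generalizing X Y with
  | zero Z hZ =>
    have : IsIso f := (Triangle.isZero₃_iff_isIso₁ _ hT).1 hZ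
    exact hX.of_iso (asIso f)
  | ext A Z B a b c hT' hA hB ih =>
    obtain ⟨W, f'', h'', hT''⟩ := distinguished_cocone_triangle₁ (g ≫ b)
    let o := someOctahedron' rfl hT hT' hT''
    exact Filt.ext W Y B _ _ _ hT'' (ih _ _ _ o.mem hX) hB

/-- an induction over the extension closure: if `Q` is closed under extensions, contains the zero objects and `P`, it
contains `Filt P` -/
theorem Filt.le_of_closed {P Q : D → Prop} (h0 : ∀ X, IsZero X → Q X) (hP : ∀ X, P X → Q X)
    (hext : ∀ {X Y Z : D} (f : X ⟶ Y) (g : Y ⟶ Z) (h : Z ⟶ X⟦(1 : ℤ)⟧),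
      Triangle.mk f g h ∈ distTriang D → Q X → Q Z → Q Y) {X : D} (hX : Filt P X) : Q X := by
  induction hX with
  | zero X hX => exact h0 _ hX
  | ext A X B f g h hT _ hB ih => exact hext f g h hT ih (hP _ hB)

/-- closure of a closure -/
theorem Filt.trans [IsTriangulated D] {P Q : D → Prop} (hPQ : ∀ X, P X → Filt Q X) {X : D} (hX : Filt P X) :
    Filt Q X := by
  induction hX with
  | zero X hX => exact Filt.zero _ hX
  | ext A X B f g h hT _ hB ih => exact Filt.ext₂ f g h hT ih (hPQ _ hB)

/-- shifting an extension closure -/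
theorem Filt.shift [IsTriangulated D] {P Q : D → Prop} (n : ℤ) (h : ∀ X, P X → Filt Q (X⟦n⟧))
    {X : D} (hX : Filt P X) : Filt Q (X⟦n⟧) := by
  induction hX with
  | zero X hX => exact Filt.zero _ ((shiftFunctor D n).map_isZero hX)
  | ext A X B f g h' hT _ hB ih =>
    exact Filt.ext₂ _ _ _ (Triangle.shift_distinguished _ hT n) ih (h _ hB)

/-- devissage in the source -/
theorem Filt.hom_zero {P : D → Prop} {Y : D} (h : ∀ X, P X → ∀ f : X ⟶ Y, f = 0) {X : D}
    (hX : Filt P X) (f : X ⟶ Y) : f = 0 := by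
  induction hX with
  | zero X hX => exact hX.eq_of_src _ _
  | ext A X B a b c hT _ hB ih =>
    obtain ⟨g, hg⟩ := Triangle.yoneda_exact₂ _ hT f (ih _)
    rw [hg, h _ hB g]
    exact comp_zero

/-- devissage in the target -/
theorem Filt.zero_hom {P : D → Prop} {X : D} (h : ∀ Y, P Y → ∀ f : X ⟶ Y, f = 0) {Y : D}
    (hY : Filt P Y) (f : X ⟶ Y) : f = 0 := by
  induction hY with
  | zero Y hY => exact hY.eq_of_tgt _ _
  | ext A Y B a b c hT _ hB ih =>
    obtain ⟨g, hg⟩ := Triangle.coyoneda_exact₂ _ hT f (h _ hB _)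
    rw [hg, ih g]
    exact zero_comp

/-- devissage in both variables -/
theorem Filt.hom_zero₂ {P Q : D → Prop} (h : ∀ X Y, P X → Q Y → ∀ f : X ⟶ Y, f = 0) {X Y : D}
    (hX : Filt P X) (hY : Filt Q Y) (f : X ⟶ Y) : f = 0 :=
  Filt.hom_zero (fun X hX f => Filt.zero_hom (fun Y hY f => h X Y hX hY f) hY f) hX f

end EGr
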