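import Pool.Agent.Lib_MP_a23b08_t1.Main

/-!
# T1-Extra: the coaisle of a forward tilt, `S⟦1⟧` is simple in it, lists of simple objects of the tilt
-/

set_option backward.defeqAttrib.useBackward true
set_option backward.isDefEq.respectTransparency false
set_option linter.unusedSectionVars false
set_option linter.unusedVariables false

open CategoryTheory CategoryTheory.Limits CategoryTheory.Triangulated CategoryTheory.Pretriangulated
open ZeroObject

universe v u

namespace EGr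

variable {D : Type u} [Category.{v} D] [Preadditive D] [HasZeroObject D] [HasShift D ℤ]
  [∀ n : ℤ, (shiftFunctor D n).Additive] [Pretriangulated D] [IsTriangulated D] {ι : Type} {S : ι → D}

/-- the coaisle of `t` in terms of the forward tilt `t'` of `t` at `S` -/
theorem fwdTilt_ge_iff {t t' : TStructure D} {S : D} (ht : IsFiniteHeart t) (hb' : Bdd t') (h : IsFwdTilt t S t')
    (X : D) : t.ge 0 X ↔ t'.ge 0 X ∧ ∀ f : S⟦(1 : ℤ)⟧ ⟶ X, f = 0 := by
  have hle := fwdTilt_le_iff hb' h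
  constructor
  · intro hX
    refine ⟨?_, fun f => ?_⟩
    · rw [ge_iff_orth]
      intro Y r hY
      refine le_zero_of t (a := -1) (b := 0) (by norm_num) ?_ hX r
      have h3 : t'.le 0 (Y⟦(-1 : ℤ)⟧) := (le_of_shift _ (n := 0 - 1) (by ring)).2 hY
      exact (le_of_shift _ (n := -1) (by ring)).1 ((hle _).1 h3).1
    · exact le_zero_of t (a := -1) (b := 0) (by norm_num) ((le_of_shift t (n := 0) (by ring)).2 h.1.1.1) hX f
  · rintro ⟨hX, hX0⟩
    obtain ⟨n, L, hL⟩ := ht.exists_slist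
    obtain ⟨i, ⟨ei⟩⟩ := hL.all S h.1
    have hS := hL.isSMC
    rw [ge_iff_orth]
    intro Y r hY
    rw [hL.eq_tstr] at hY
    refine Filt.hom_zero ?_ hY r
    rintro Z ⟨j, m, hm, ⟨e⟩⟩ s
    rw [Set.mem_Ici] at hm
    rw [← cancel_epi e.inv, comp_zero]
    by_cases hjm : j = i ∧ m = 1
    · obtain ⟨rfl, rfl⟩ := hjm
      let e1 : S⟦(1 : ℤ)⟧ ≅ (L j)⟦(1 : ℤ)⟧ := (shiftFunctor D (1 : ℤ)).mapIso ei
      rw [← cancel_epi e1.hom, hX0 (e1.hom ≫ e.inv ≫ s), comp_zero]
    · have h1 : t'.le 0 ((L j)⟦m - 1⟧) := by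
        rw [hle]
        refine ⟨(le_of_shift t (n := m - 1) (by ring)).2 (le_mono' t (by omega) (hL.simple j).1.1), fun f => ?_⟩
        by_cases hm1 : m = 1
        · subst hm1
          have hji : j ≠ i := fun h0 => hjm ⟨h0, rfl⟩
          let e0 : (L j)⟦(1 : ℤ) - 1⟧ ≅ L j := (shiftFunctorZero D ℤ).app (L j)
          rw [← cancel_epi e0.inv, ← cancel_mono ei.hom, hS.hom_ne j i hji ((e0.inv ≫ f) ≫ ei.hom)]
          simp
        · exact le_zero_of t (a := 0 - (m - 1)) (b := 0) (by omega)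
            ((le_of_shift t (n := 0) (by ring)).2 (hL.simple j).1.1) h.1.1.2 f
      have h2 : t'.le (-1) ((L j)⟦m⟧) := by
        have h3 : t'.le 0 (((L j)⟦m⟧)⟦(-1 : ℤ)⟧) :=
          (t'.le 0).prop_of_iso ((shiftFunctorAdd' D m (-1) (m - 1) (by ring)).app (L j)) h1
        exact (le_of_shift t' (n := -1) (by ring)).1 h3
      exact le_zero_of t' (a := -1) (b := 0) (by norm_num) h2 hX _

/-- the t-structure `t` is determined by its forward tilt `t'` and by `S⟦1⟧` -/
theorem fwdTilt_inj {t₁ t₂ t' : TStructure D} {S₁ S₂ : D} (h₁ : IsFiniteHeart t₁) (h₂ : IsFiniteHeart t₂) (hb' : Bdd t')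
    (H₁ : IsFwdTilt t₁ S₁ t') (H₂ : IsFwdTilt t₂ S₂ t') (e : S₁ ≅ S₂) : t₁ = t₂ := by
  have key : ∀ X, t₁.ge 0 X ↔ t₂.ge 0 X := by
    intro X
    rw [fwdTilt_ge_iff h₁ hb' H₁, fwdTilt_ge_iff h₂ hb' H₂]
    refine and_congr_right (fun _ => ⟨fun h f => ?_, fun h f => ?_⟩)
    · rw [← cancel_epi (e.hom⟦(1 : ℤ)⟧'), h (e.hom⟦(1 : ℤ)⟧' ≫ f), comp_zero]
    · rw [← cancel_epi (e.inv⟦(1 : ℤ)⟧'), h (e.inv⟦(1 : ℤ)⟧' ≫ f), comp_zero]
  refine tstr_ext_le (fun X => ?_)
  rw [le_iff_orth, le_iff_orth]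
  refine forall_congr' (fun Y => forall_congr' (fun f => ?_))
  have h3 : t₁.ge (0 + 1) Y ↔ t₂.ge (0 + 1) Y := by
    rw [← ge_of_shift t₁ (X := Y) (n := 0 + 1) (a := 1) (n' := 0) (by ring),
      ← ge_of_shift t₂ (X := Y) (n := 0 + 1) (a := 1) (n' := 0) (by ring)]
    exact key _
  rw [h3]

/-- a nonzero map from `S j` to an object of the heart has its cone in the heart -/
theorem IsSMC.cofibre_aux (hS : IsSMC S) (j : ι) {A : D} (hA : FiltL (fun Y => ∃ i, Nonempty (Y ≅ S i)) A)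
    (f : S j ⟶ A) (hf : f ≠ 0) {C : D} {c : A ⟶ C} {d : C ⟶ (S j)⟦(1 : ℤ)⟧} (hT : Triangle.mk f c d ∈ distTriang D) :
    hS.tstr.heart C := by
  induction hA generalizing C with
  | zero A hA => exact (hf (hA.eq_of_tgt _ _)).elim
  | ext B A A' a b q hT' hB hA' ih =>
    obtain ⟨l, ⟨e⟩⟩ := hB
    have hBh : hS.tstr.heart B := heart_of_iso e.symm (hS.mem_heart l)
    by_cases hf' : f ≫ b = 0
    · -- `f` factors through `B ≅ S l`
      obtain ⟨g, hg⟩ := Triangle.coyoneda_exact₂ _ hT' f hf'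
      have hg0 : g ≠ 0 := by
        rintro rfl
        exact hf (by rw [hg]; exact zero_comp)
      have hge : g ≫ e.hom ≠ 0 := fun h0 => hg0 (by rw [← cancel_mono e.hom, h0, zero_comp])
      have hjl : j = l := by
        by_contra hjl
        exact hge (hS.hom_ne j l hjl _)
      subst hjl
      have hiso : IsIso g := by
        rcases hS.zero_or_iso j (g ≫ e.hom) with h1 | h1
        · exact (hge h1).elim
        · have : g = (g ≫ e.hom) ≫ e.inv := by simp
          rw [this]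
          infer_instance
      -- the cone of `f = g ≫ a` is `A'`
      have iso := isoTriangleOfIso₁₂ _ _ hT hT' (asIso g) (Iso.refl _) (by
        change f ≫ 𝟙 _ = g ≫ a
        rw [Category.comp_id]; exact hg)
      have e3 : C ≅ A' := Triangle.π₃.mapIso iso
      exact heart_of_iso e3.symm ((hS.heart_iff _).2 hA'.toFilt)
    · obtain ⟨C', c', d', hT''⟩ := distinguished_cocone_triangle (f ≫ b)
      have hC' := ih (f ≫ b) hf' hT''
      let o := someOctahedron rfl hT (rot_of_distTriang _ hT') hT''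
      have h1 := inv_rot_of_distTriang _ o.mem
      have e1 : (B⟦(1 : ℤ)⟧)⟦(-1 : ℤ)⟧ ≅ B := ((shiftEquiv D (1 : ℤ)).unitIso.app B).symm
      have hB' : hS.tstr.heart ((B⟦(1 : ℤ)⟧)⟦(-1 : ℤ)⟧) := heart_of_iso e1.symm hBh
      rw [hS.tstr_heart] at hC' hB' ⊢
      exact Filt.ext₂ _ _ _ h1 hB' hC'

theorem IsSMC.cofibre (hS : IsSMC S) (j : ι) {A : D} (hA : hS.tstr.heart A)
    (f : S j ⟶ A) (hf : f ≠ 0) {C : D} {c : A ⟶ C} {d : C ⟶ (S j)⟦(1 : ℤ)⟧} (hT : Triangle.mk f c d ∈ distTriang D) :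
    hS.tstr.heart C :=
  hS.cofibre_aux j ((hS.heart_iff A).1 hA).toL f hf hT

/-- an object of the heart without maps to the simple objects is zero -/
theorem IsSMC.isZero_of_hom (hS : IsSMC S) {Q : D} (hQ : hS.tstr.heart Q) (h : ∀ (l : ι) (f : Q ⟶ S l), f = 0) :
    IsZero Q := by
  rw [hS.heart_iff] at hQ
  cases hQ with
  | zero _ h0 => exact h0
  | ext A Q B f g q hT hA hB =>
    obtain ⟨l, ⟨e⟩⟩ := hB
    have hg : g = 0 := by rw [← cancel_mono e.hom, h l (g ≫ e.hom), zero_comp]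
    have hBh : hS.tstr.heart B := heart_of_iso e.symm (hS.mem_heart l)
    have h1 := (isIso_of_zero' hT hg (fun r => heart_hom_shift_zero hS.tstr ((hS.heart_iff A).2 hA) hBh (by norm_num) r)).1
    exact (hS.ne_zero l (h1.of_iso e.symm)).elim

/-- `S⟦1⟧` is a simple object of the forward tilt at `S` -/
theorem fwdTilt_simple_shift {t t' : TStructure D} {S : D} (ht : IsFiniteHeart t) (hb' : Bdd t') (h : IsFwdTilt t S t') :
    SimpleIn t' (S⟦(1 : ℤ)⟧) := by
  have hle := fwdTilt_le_iff hb' h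
  obtain ⟨hS1, hh⟩ := h
  obtain ⟨n, L, hL⟩ := ht.exists_slist
  obtain ⟨i, ⟨ei⟩⟩ := hL.all S hS1
  have hS := hL.isSMC
  have hteq := hL.eq_tstr
  refine ⟨?_, fun h0 => hS1.2.1 ?_, ?_⟩
  · refine (hh _).2 ⟨S, 0, 𝟙 _, 0, 0, contractible_distinguished _, Filt.of_mem ⟨Iso.refl _⟩, ?_, fun φ =>
      (isZero_zero D).eq_of_src _ _⟩
    exact ⟨by rw [t.le_iff_isLE]; exact t.isLE_of_isZero (isZero_zero D) 0,
      by rw [t.ge_iff_isGE]; exact t.isGE_of_isZero (isZero_zero D) 0⟩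
  · exact ((shiftFunctor D (-1 : ℤ)).map_isZero h0).of_iso ((shiftEquiv D (1 : ℤ)).unitIso.app S)
  · intro A B f g q hT hA hB
    by_cases hg : g = 0
    · right
      exact (isIso_of_zero' hT hg (fun r => heart_hom_shift_zero t' hA hB (by norm_num) r)).1
    · left
      obtain ⟨FB, TB, b, b', b'', hTB, hFB, hTBh, hTB0⟩ := (hh B).1 hB
      obtain ⟨FA, TA, a, a', a'', hTA, hFA, hTAh, hTA0⟩ := (hh A).1 hA
      have hSle : t.le (-1) (S⟦(1 : ℤ)⟧) := (le_of_shift t (n := 0) (by ring)).2 hS1.1.1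
      have hSfilt : ∀ {F : D}, Filt (fun Y => Nonempty (Y ≅ S)) F → t.heart F := by
        intro F hF
        rw [hteq, hS.heart_iff]
        refine Filt.mono ?_ hF
        rintro Y ⟨e⟩
        exact ⟨i, ⟨e ≪≫ ei⟩⟩
      have hAle : t.le 0 A := ((hle A).1 hA.1).1
      -- `B ⟶ TB` is zero
      have h1 : b' = 0 := by
        have h2 : g ≫ b' = 0 := le_zero_of t (a := -1) (b := 0) (by norm_num) hSle hTBh.2 _
        obtain ⟨s, hs⟩ := Triangle.yoneda_exact₃ _ hT b' h2
        have hs0 : s = 0 := le_zero_of t (a := -1) (b := 0) (by norm_num)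
          ((le_of_shift t (n := 0) (by ring)).2 hAle) hTBh.2 s
        rw [hs, hs0]
        exact comp_zero
      have h3 := isIso_of_zero' hTB h1 (fun r => by
        refine le_zero_of t (a := -2) (b := 0) (by norm_num) ?_ hTBh.2 r
        exact (le_of_shift t (n := -1) (by ring)).2 ((le_of_shift t (n := 0) (by ring)).2 (hSfilt hFB).1))
      have := h3.2
      -- `g` comes from `r : S ⟶ FB`
      obtain ⟨r, hr⟩ := (shiftFunctor D (1 : ℤ)).map_surjective (g ≫ inv b)
      have hr0 : r ≠ 0 := by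
        rintro rfl
        apply hg
        rw [Functor.map_zero] at hr
        rw [← cancel_mono (inv b), ← hr, zero_comp]
      obtain ⟨C, c, d, hC⟩ := distinguished_cocone_triangle r
      have hCh : t.heart C := by
        rw [hteq]
        have hr' : ei.inv ≫ r ≠ 0 := fun h0 => hr0 (by rw [← cancel_epi ei.inv, h0, comp_zero])
        refine hS.cofibre i (A := FB) (by rw [← hteq]; exact hSfilt hFB) (ei.inv ≫ r) hr' (c := c)
          (d := d ≫ ei.hom⟦(1 : ℤ)⟧') ?_
        refine isomorphic_distinguished _ hC _ (Triangle.isoMk _ _ ei.symm (Iso.refl _) (Iso.refl _)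
          (by simp) (by simp) ?_)
        simp only [Triangle.mk_mor₃, Category.assoc, Iso.refl_hom, Category.id_comp, Iso.symm_hom]
        rw [← Functor.map_comp]
        simp
      -- `A⟦1⟧ ≅ C⟦1⟧`
      have iso := isoTriangleOfIso₁₂ _ _ (rot_of_distTriang _ hT) (Triangle.shift_distinguished _ hC 1)
        (-(Iso.refl _)) (asIso (inv b)) (by
          simp [hr])
      have e3 : A⟦(1 : ℤ)⟧ ≅ C⟦(1 : ℤ)⟧ := Triangle.π₃.mapIso iso
      have e4 : A ≅ C := (shiftEquiv D (1 : ℤ)).unitIso.app A ≪≫ (shiftFunctor D (-1 : ℤ)).mapIso e3 ≪≫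
          ((shiftEquiv D (1 : ℤ)).unitIso.app C).symm
      have hC0 : IsZero C := by
        rw [hteq] at hCh
        refine hS.isZero_of_hom hCh (fun l s => ?_)
        by_cases hl : l = i
        · subst hl
          rw [← cancel_epi e4.hom, ← cancel_mono ei.inv, ((hle A).1 hA.1).2 ((e4.hom ≫ s) ≫ ei.inv)]
          simp
        · have h5 : c ≫ s = 0 := by
            refine filt_isoTo_hom (A := S) hFB (fun w => ?_) _
            rw [← cancel_epi ei.inv, hS.hom_ne i l (Ne.symm hl) (ei.inv ≫ w), comp_zero]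
          obtain ⟨w, hw⟩ := Triangle.yoneda_exact₃ _ hC s h5
          have hw0 : w = 0 := le_zero_of t (a := -1) (b := 0) (by norm_num) hSle (hL.simple l).1.2 w
          rw [hw, hw0]
          exact comp_zero
      exact hC0.of_iso e4

/-- the objects of `le 0`, `ge 1` and all objects in terms of a list of the simples -/
theorem slist_gen {t : TStructure D} {n : ℕ} {X : Fin n → D} (ht : IsFiniteHeart t) (hX : SList t X) (Z : D) :
    Filt (fun W => ∃ (j : Fin n) (m : ℤ), Nonempty (W ≅ (X j)⟦m⟧)) Z ∧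
      (t.le 0 Z → Filt (fun W => ∃ (j : Fin n) (m : ℤ), 0 ≤ m ∧ Nonempty (W ≅ (X j)⟦m⟧)) Z) ∧
      (t.ge 1 Z → Filt (fun W => ∃ (j : Fin n) (m : ℤ), m ≤ -1 ∧ Nonempty (W ≅ (X j)⟦m⟧)) Z) := by
  have hM := hX.toSMList ht
  refine ⟨?_, fun h => ?_, fun h => ?_⟩
  · exact Filt.mono (fun W ⟨j, m, _, e⟩ => ⟨j, m, e⟩) (hM.isSMC.gen Z)
  · rw [hM.eq_tstr] at h
    exact Filt.mono (fun W ⟨j, m, hm, e⟩ => ⟨j, m, by rw [Set.mem_Ici] at hm; omega, e⟩) h
  · rw [hM.eq_tstr] at h
    exact Filt.mono (fun W ⟨j, m, hm, e⟩ => ⟨j, m, by rw [Set.mem_Iic] at hm; omega, e⟩) h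

/-- the list of the simples of the tilt, recognised by its properties -/
theorem tilt_slist {t t' : TStructure D} {n : ℕ} {X Y : Fin n → D} {i : Fin n} (ht : IsFiniteHeart t)
    (hX : SList t X) (h : IsFwdTilt t (X i) t') (hY : MutData X Y i) : SList t' Y := by
  have hM := hX.toSMList ht
  have hS := hM.isSMC
  have h1 := hY.isFwdTilt hS
  rw [← hM.eq_tstr] at h1
  have h2 : (hY.isSMC hS).tstr = t' := fwdTilt_unique_bdd (hY.isSMC hS).bounded h1 h
  rw [← h2]
  exact (hY.isSMC hS).slist.toSList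

end EGr
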