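import Pool.Agent.Lib_MP_a23b08_t1.Tilt
import Pool.Agent.Lib_MP_a23b08_t.T2Int

/-!
# T1-Main: the statements wanted by T2 (interface `T2Int`)
-/

set_option backward.defeqAttrib.useBackward true
set_option backward.isDefEq.respectTransparency false
set_option linter.unusedSectionVars false
set_option linter.unusedVariables false

open CategoryTheory CategoryTheory.Limits CategoryTheory.Triangulated CategoryTheory.Pretriangulated
open ZeroObject

universe v u

namespace EGr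

section
variable {D : Type u} [Category.{v} D] [Preadditive D] [HasZeroObject D] [HasShift D ℤ]
  [∀ n : ℤ, (shiftFunctor D n).Additive] [Pretriangulated D] [IsTriangulated D]

/-- the aisle of a forward tilt -/
theorem fwdTilt_le_iff {t t' : TStructure D} {S : D} (hb' : Bdd t') (h : IsFwdTilt t S t') (X : D) :
    t'.le 0 X ↔ t.le 0 X ∧ ∀ f : X ⟶ S, f = 0 := by
  obtain ⟨hS, hh⟩ := h
  constructor
  · intro hX
    obtain ⟨a, b, ha, _⟩ := hb' X
    have h1 := filt_heart t' a 0 ha hX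
    refine ⟨?_, ?_⟩
    · refine filt_le t 0 ?_ h1
      rintro Y ⟨H, m, hH, hm, _, ⟨e⟩⟩
      obtain ⟨A, B, f, g, q, hT, hA, hB, _⟩ := (hh H).1 hH
      have hA' : t.le (-1) (A⟦(1 : ℤ)⟧) := (le_of_shift t (n := 0) (by ring)).2
        (filt_le t 0 (fun Z ⟨eZ⟩ => (t.le 0).prop_of_iso eZ.symm hS.1.1) hA)
      have hH' : t.le 0 H := le₂ t 0 hT (le_mono' t (by norm_num) hA') hB.1
      refine (t.le 0).prop_of_iso e.symm ?_
      exact (le_of_shift t (n := m) (by ring)).2 (le_mono' t (by omega) hH')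
    · refine Filt.hom_zero ?_ h1
      rintro Y ⟨H, m, hH, hm, _, ⟨e⟩⟩ r
      obtain ⟨A, B, f, g, q, hT, hA, hB, hB0⟩ := (hh H).1 hH
      have hA' : t.le (-1) (A⟦(1 : ℤ)⟧) := (le_of_shift t (n := 0) (by ring)).2
        (filt_le t 0 (fun Z ⟨eZ⟩ => (t.le 0).prop_of_iso eZ.symm hS.1.1) hA)
      have hH' : t.le 0 H := le₂ t 0 hT (le_mono' t (by norm_num) hA') hB.1
      rw [← cancel_epi e.inv, comp_zero]
      rcases (show 0 ≤ m by omega).eq_or_lt with hm0 | hm0
      · subst hm0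
        let e0 : H⟦(0 : ℤ)⟧ ≅ H := (shiftFunctorZero D ℤ).app H
        have h2 : ∀ w : H ⟶ S, w = 0 := by
          intro w
          obtain ⟨s, hs⟩ := Triangle.yoneda_exact₂ _ hT w
            (le_zero_of t (a := -1) (b := 0) (by norm_num) hA' hS.1.2 _)
          rw [hs, hB0 s]
          exact comp_zero
        rw [← cancel_epi e0.inv, h2 (e0.inv ≫ e.inv ≫ r), comp_zero]
      · exact le_zero_of t (a := -m) (b := 0) (by omega)
          ((le_of_shift t (n := 0) (by ring)).2 hH') hS.1.2 _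
  · rintro ⟨hX, hX0⟩
    rw [le_iff_orth]
    intro Y r hY
    obtain ⟨a, b, _, hb⟩ := hb' Y
    refine Filt.zero_hom ?_ (filt_heart t' 1 b hY hb) r
    rintro Z ⟨H, m, hH, _, hm, ⟨e⟩⟩ s
    obtain ⟨A, B, f, g, q, hT, hA, hB, hB0⟩ := (hh H).1 hH
    rw [← cancel_mono e.hom, zero_comp]
    have hTm := Triangle.shift_distinguished _ hT m
    obtain ⟨w, hw⟩ := Triangle.coyoneda_exact₂ _ hTm (s ≫ e.hom) (by
      refine le_zero_of t (a := 0) (b := -m) (by omega) hX ?_ _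
      exact (ge_of_shift t (n := 0) (by ring)).2 hB.2)
    have hA0 : ∀ w : X ⟶ (A⟦(1 : ℤ)⟧)⟦m⟧, w = 0 := by
      intro w
      have hAh : Filt (isoTo S) A := hA
      have hA1 : Filt (isoTo ((S⟦(1 : ℤ)⟧)⟦m⟧)) ((A⟦(1 : ℤ)⟧)⟦m⟧) :=
        filt_isoTo_shift m (filt_isoTo_shift 1 hAh)
      refine hom_filt_isoTo hA1 ?_ w
      intro x
      by_cases hm1 : m = -1
      · subst hm1
        let e1 : (S⟦(1 : ℤ)⟧)⟦(-1 : ℤ)⟧ ≅ S := ((shiftEquiv D (1 : ℤ)).unitIso.app S).symm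
        rw [← cancel_mono e1.hom, hX0 (x ≫ e1.hom), zero_comp]
      · refine le_zero_of t (a := 0) (b := -1 - m) (by omega) hX ?_ _
        exact (ge_of_shift t (n := -1) (by ring)).2 ((ge_of_shift t (n := 0) (by ring)).2 hS.1.2)
    rw [hw, hA0 w]
    exact zero_comp

theorem leStmt : LeStmt D := fun t t' S _ ht' h X => fwdTilt_le_iff ht'.bounded h X

/-- a forward tilt is determined by the t-structure and the simple object, among bounded ones -/
theorem fwdTilt_unique_bdd {t t' t'' : TStructure D} {S : D} (hb : Bdd t') (h : IsFwdTilt t S t') (h' : IsFwdTilt t S t'') :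
    t' = t'' :=
  tstr_ext_heart hb (fun X hX => (h'.2 X).2 ((h.2 X).1 hX))

theorem SList.toSMList {t : TStructure D} {n : ℕ} {X : Fin n → D} (ht : IsFiniteHeart t) (h : SList t X) : SMList t X :=
  ⟨h.simple, h.inj, h.all, ht.bounded, ht.length⟩

theorem SMList.toSList {t : TStructure D} {n : ℕ} {X : Fin n → D} (h : SMList t X) : SList t X :=
  ⟨h.simple, h.inj, h.all⟩

end

section
variable (k : Type) [Field k] (D : Type u) [Category.{v} D] [Preadditive D] [HasZeroObject D]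
  [HasShift D ℤ] [∀ n : ℤ, (shiftFunctor D n).Additive] [Pretriangulated D] [IsTriangulated D] [Linear k D]

/-- the tilt theorem -/
theorem tiltStmt [IsAlgClosed k] (hfin : ∀ X Y : D, Module.Finite k (X ⟶ Y)) : TiltStmt k D := by
  intro t ht n X hX i hi
  have hM := hX.toSMList ht
  have hS : IsSMC X := hM.isSMC
  have hA1 : ∀ f : (X i)⟦(1 : ℤ)⟧ ⟶ (X i)⟦(1 : ℤ)⟧, ∃ c : k, f = c • 𝟙 _ := by
    have := hfin ((X i)⟦(1 : ℤ)⟧) ((X i)⟦(1 : ℤ)⟧)
    exact endo_scalar k (hS.hom_self i 1)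
  have hex : ∀ j : Fin n, j ≠ i → ∃ (E Y : D) (a : E ⟶ Y) (b : Y ⟶ X j) (c : X j ⟶ E⟦(1 : ℤ)⟧),
      Triangle.mk a b c ∈ distTriang D ∧
      Filt (isoTo (X i)) E ∧ (∀ f : Y ⟶ X i, f = 0) ∧ (∀ f : Y ⟶ (X i)⟦(1 : ℤ)⟧, f = 0) ∧
      ∀ cls : D → ℤ, AddZ cls → cls Y = cls (X j) + Module.finrank k (X j ⟶ (X i)⟦(1 : ℤ)⟧) • cls (X i) :=
    fun j hj => univ_ext k hi hA1 _ (X j) (hS.hom_ne j i hj) (hfin _ _) rfl
  choose! E Y a b c hT hE hY0 hY1 hcls using hex
  let X' : Fin n → D := fun j => if j = i then (X i)⟦(1 : ℤ)⟧ else Y j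
  have hX'i : X' i = (X i)⟦(1 : ℤ)⟧ := if_pos rfl
  have hX'j : ∀ j, j ≠ i → X' j = Y j := fun j hj => if_neg hj
  have hm : MutData X X' i := by
    refine ⟨⟨eqToIso hX'i⟩, ?_, ?_, ?_⟩
    · intro j hj
      rw [hX'j j hj]
      exact ⟨E j, a j, b j, c j, hT j hj, hE j hj⟩
    · intro j hj
      rw [hX'j j hj]
      exact hY0 j hj
    · intro j hj
      rw [hX'j j hj]
      exact hY1 j hj
  have hSM := (hm.isSMC hS).slist
  refine ⟨(hm.isSMC hS).tstr, X', ?_, hSM.isFiniteHeart, hSM.toSList, hm.iso, ?_⟩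
  · have h1 := hm.isFwdTilt hS
    rwa [← hM.eq_tstr] at h1
  · intro j hj cls hadd
    funext q
    have h1 := hcls j hj (fun Z => cls Z q) (fun T hT => by
      change cls T.obj₂ q = cls T.obj₁ q + cls T.obj₃ q
      rw [hadd T hT]; rfl)
    rw [hX'j j hj]
    simpa using h1

end

end EGr
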