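import Pool.Agent.Lib_MP_a23b08_t.TDef

/-!
# T1-Defs: simple-minded collections

`Filt P` (file TDef) is the extension closure of `P`. A simple-minded collection is a family `S i` of objects with
no negative self-extensions, orthogonal to each other, with `End` a division ring, and generating `D` by shifts and
extensions. `cl S I` is the extension closure of the shifts `(S i)⟦m⟧`, `m ∈ I`.
-/

open CategoryTheory CategoryTheory.Limits CategoryTheory.Triangulated CategoryTheory.Pretriangulated

universe v u

namespace EGr

variable {D : Type u} [Category.{v} D] [Preadditive D] [HasZeroObject D] [HasShift D ℤ]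
  [∀ n : ℤ, (shiftFunctor D n).Additive] [Pretriangulated D]

/-- The class of objects isomorphic to `S`. -/
def isoTo (S : D) : ObjectProperty D := fun X => Nonempty (X ≅ S)

/-- The shifts `(S i)⟦m⟧` with `m` in `I`, up to isomorphism. -/
def shifts {ι : Type} (S : ι → D) (I : Set ℤ) : ObjectProperty D :=
  fun Y => ∃ (i : ι) (m : ℤ), m ∈ I ∧ Nonempty (Y ≅ (S i)⟦m⟧)

/-- The extension closure of the shifts `(S i)⟦m⟧` with `m` in `I`. -/
def cl {ι : Type} (S : ι → D) (I : Set ℤ) : ObjectProperty D := Filt (shifts S I)

/-- A simple-minded collection `S i` (`i : ι`): no negative self-extensions, no maps between different members, each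
endomorphism of `S i` is zero or invertible, and the `S i` generate `D` by shifts and extensions. -/
structure IsSMC {ι : Type} (S : ι → D) : Prop where
  hom_neg : ∀ (i j : ι) (m : ℤ), m < 0 → ∀ f : S i ⟶ (S j)⟦m⟧, f = 0
  hom_ne : ∀ (i j : ι), i ≠ j → ∀ f : S i ⟶ S j, f = 0
  zero_or_iso : ∀ (i : ι) (f : S i ⟶ S i), f = 0 ∨ IsIso f
  ne_zero : ∀ i : ι, ¬ IsZero (S i)
  gen : ∀ X : D, cl S Set.univ X

end EGr
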