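import Pool.Agent.Lib_MP_a23b08_t1.Schur

/-!
# T1-Mut: the forward mutation of a simple-minded collection
-/

set_option backward.defeqAttrib.useBackward true
set_option backward.isDefEq.respectTransparency false
set_option linter.unusedSectionVars false
set_option linter.unusedVariables false

open CategoryTheory CategoryTheory.Limits CategoryTheory.Triangulated CategoryTheory.Pretriangulated
open ZeroObject

universe v u

namespace EGr

variable {D : Type u} [Category.{v} D] [Preadditive D] [HasZeroObject D] [HasShift D ℤ]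
  [∀ n : ℤ, (shiftFunctor D n).Additive] [Pretriangulated D] [IsTriangulated D] {ι : Type} {S S' : ι → D} {i : ι}

/-- `S'` is the forward mutation of the family `S` at `i`: `S' i ≅ (S i)⟦1⟧`, and for `j ≠ i` the object `S' j` is the
universal extension of `S j` by copies of `S i`: `E ⟶ S' j ⟶ S j ⟶ E⟦1⟧` is distinguished, `E` is an iterated extension of copies
of `S i` and `Hom(S' j, S i) = Hom(S' j, (S i)⟦1⟧) = 0`. -/
structure MutData (S S' : ι → D) (i : ι) : Prop where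
  iso : Nonempty (S' i ≅ (S i)⟦(1 : ℤ)⟧)
  tri : ∀ j, j ≠ i → ∃ (E : D) (a : E ⟶ S' j) (b : S' j ⟶ S j) (c : S j ⟶ E⟦(1 : ℤ)⟧),
    Triangle.mk a b c ∈ distTriang D ∧ Filt (isoTo (S i)) E
  hom0 : ∀ j, j ≠ i → ∀ f : S' j ⟶ S i, f = 0
  hom1 : ∀ j, j ≠ i → ∀ f : S' j ⟶ (S i)⟦(1 : ℤ)⟧, f = 0

theorem self_mem_cl (S : ι → D) (i : ι) : cl S {0} (S i) :=
  shifts_le_cl _ ⟨i, 0, rfl, ⟨((shiftFunctorZero D ℤ).app (S i)).symm⟩⟩

theorem filt_isoTo_mem {E : D} (hE : Filt (isoTo (S i)) E) : cl S {0} E := by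
  refine Filt.mono ?_ hE
  rintro X ⟨e⟩
  exact ⟨i, 0, rfl, ⟨e ≪≫ ((shiftFunctorZero D ℤ).app (S i)).symm⟩⟩

theorem MutData.mem_ne (h : MutData S S' i) {j : ι} (hj : j ≠ i) : cl S {0} (S' j) := by
  obtain ⟨E, a, b, c, hT, hE⟩ := h.tri j hj
  exact Filt.ext₂ a b c hT (filt_isoTo_mem hE) (self_mem_cl S j)

theorem MutData.mem_self (h : MutData S S' i) : cl S {1} (S' i) := by
  obtain ⟨e⟩ := h.iso
  exact shifts_le_cl _ ⟨i, 1, rfl, ⟨e⟩⟩

theorem MutData.mem (h : MutData S S' i) (j : ι) : cl S (Set.Icc 0 1) (S' j) := by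
  by_cases hj : j = i
  · subst hj
    exact cl_mono (fun x hx => by rw [Set.mem_singleton_iff] at hx; rw [Set.mem_Icc]; omega) h.mem_self
  · exact cl_mono (fun x hx => by rw [Set.mem_singleton_iff] at hx; rw [Set.mem_Icc]; omega) (h.mem_ne hj)

theorem IsSMC.cl_single_hom_zero (hS : IsSMC S) {a b : ℤ} (hab : b < a) {X Y : D} (hX : cl S {a} X) (hY : cl S {b} Y)
    (f : X ⟶ Y) : f = 0 :=
  hS.cl_hom_zero (fun x hx y hy => by
    rw [Set.mem_singleton_iff] at hx hy; omega) hX hY f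

theorem cl_shift_single {a b m : ℤ} (h : a + m = b) {X : D} (hX : cl S {a} X) : cl S {b} (X⟦m⟧) :=
  cl_shift m (fun x hx => by rw [Set.mem_singleton_iff] at hx ⊢; omega) hX

/-- `E` an iterated extension of copies of `A` and `Hom(X, A) = 0` give `Hom(X, E) = 0` -/
theorem hom_filt_isoTo {A E X : D} (hE : Filt (isoTo A) E) (h : ∀ f : X ⟶ A, f = 0) (f : X ⟶ E) : f = 0 := by
  refine Filt.zero_hom ?_ hE f
  rintro Y ⟨e⟩ g
  rw [← cancel_mono e.hom, h (g ≫ e.hom), zero_comp]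

theorem filt_isoTo_hom {A E X : D} (hE : Filt (isoTo A) E) (h : ∀ f : A ⟶ X, f = 0) (f : E ⟶ X) : f = 0 := by
  refine Filt.hom_zero ?_ hE f
  rintro Y ⟨e⟩ g
  rw [← cancel_epi e.inv, h (e.inv ≫ g), comp_zero]

theorem filt_isoTo_shift {A E : D} (n : ℤ) (hE : Filt (isoTo A) E) : Filt (isoTo (A⟦n⟧)) (E⟦n⟧) := by
  refine Filt.shift n ?_ hE
  rintro Y ⟨e⟩
  exact Filt.of_mem ⟨(shiftFunctor D n).mapIso e⟩

/-- maps between two members of the mutation, compared with maps between the members of the old collection -/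
theorem MutData.lift (hS : IsSMC S) (h : MutData S S' i) {j l : ι} (hl : l ≠ i)
    {E : D} {a : E ⟶ S' j} {b : S' j ⟶ S j} {c : S j ⟶ E⟦(1 : ℤ)⟧} (hT : Triangle.mk a b c ∈ distTriang D)
    (hE : Filt (isoTo (S i)) E) (f : S' j ⟶ S l) : ∃ g : S j ⟶ S l, f = b ≫ g := by
  have h0 : a ≫ f = 0 := filt_isoTo_hom hE (hS.hom_ne i l (Ne.symm hl)) _
  exact Triangle.yoneda_exact₂ _ hT f h0

theorem MutData.cancel (h : MutData S S' i) {j l : ι} (hj : j ≠ i)
    {E : D} {a : E ⟶ S' l} {b : S' l ⟶ S l} {c : S l ⟶ E⟦(1 : ℤ)⟧} (hT : Triangle.mk a b c ∈ distTriang D)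
    (hE : Filt (isoTo (S i)) E) (f : S' j ⟶ S' l) (hf : f ≫ b = 0) : f = 0 := by
  obtain ⟨g, hg⟩ := Triangle.coyoneda_exact₂ _ hT f hf
  rw [hg, hom_filt_isoTo hE (h.hom0 j hj) g]
  exact zero_comp

theorem MutData.descend (h : MutData S S' i) {j l : ι} (hj : j ≠ i)
    {E : D} {a : E ⟶ S' l} {b : S' l ⟶ S l} {c : S l ⟶ E⟦(1 : ℤ)⟧} (hT : Triangle.mk a b c ∈ distTriang D)
    (hE : Filt (isoTo (S i)) E) (f : S' j ⟶ S l) : ∃ g : S' j ⟶ S' l, f = g ≫ b := by
  have h0 : f ≫ c = 0 := hom_filt_isoTo (filt_isoTo_shift 1 hE) (h.hom1 j hj) _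
  exact Triangle.coyoneda_exact₃ _ hT f h0

theorem MutData.isSMC (hS : IsSMC S) (h : MutData S S' i) : IsSMC S' where
  hom_neg p q m hm f := by
    have hq : cl S (Set.Icc m (m + 1)) ((S' q)⟦m⟧) := cl_shift m (fun x hx => by
      rw [Set.mem_Icc] at hx ⊢; omega) (h.mem q)
    by_cases hp : p = i
    · subst hp
      exact hS.cl_hom_zero (fun x hx y hy => by
        rw [Set.mem_singleton_iff] at hx; rw [Set.mem_Icc] at hy; omega) h.mem_self hq f
    · by_cases hq' : q = i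
      · subst hq'
        obtain ⟨e⟩ := h.iso
        by_cases hm1 : m = -1
        · subst hm1
          let e1 : (S' q)⟦(-1 : ℤ)⟧ ≅ S q := (shiftFunctor D (-1 : ℤ)).mapIso e ≪≫
            ((shiftEquiv D (1 : ℤ)).unitIso.app (S q)).symm
          rw [← cancel_mono e1.hom, h.hom0 p hp (f ≫ e1.hom), zero_comp]
        · exact hS.cl_hom_zero (fun x hx y hy => by
            rw [Set.mem_singleton_iff] at hx; rw [Set.mem_Icc] at hy; omega) (h.mem_ne hp) hq f
      · exact hS.cl_single_hom_zero hm (h.mem_ne hp) (cl_shift_single (by ring) (h.mem_ne hq')) f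
  hom_ne p q hpq f := by
    by_cases hp : p = i
    · subst hp
      exact hS.cl_single_hom_zero (by norm_num) h.mem_self (h.mem_ne (Ne.symm hpq)) f
    · by_cases hq : q = i
      · subst hq
        obtain ⟨e⟩ := h.iso
        rw [← cancel_mono e.hom, h.hom1 p hp (f ≫ e.hom), zero_comp]
      · obtain ⟨E, a, b, c, hT, hE⟩ := h.tri p hp
        obtain ⟨E', a', b', c', hT', hE'⟩ := h.tri q hq
        refine h.cancel hp hT' hE' f ?_
        obtain ⟨g, hg⟩ := h.lift hS hq hT hE (f ≫ b')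
        rw [hg, hS.hom_ne p q hpq g, comp_zero]
  zero_or_iso p f := by
    by_cases hp : p = i
    · subst hp
      obtain ⟨e⟩ := h.iso
      rcases hS.hom_self p 1 (e.inv ≫ f ≫ e.hom) with h1 | h1
      · left
        rw [← cancel_epi e.inv, ← cancel_mono e.hom]
        simpa using h1
      · right
        have : f = e.hom ≫ (e.inv ≫ f ≫ e.hom) ≫ e.inv := by simp
        rw [this]
        infer_instance
    · obtain ⟨E, a, b, c, hT, hE⟩ := h.tri p hp
      obtain ⟨g, hg⟩ := h.lift hS hp hT hE (f ≫ b)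
      rcases hS.zero_or_iso p g with hg0 | hg1
      · left
        exact h.cancel hp hT hE f (by rw [hg, hg0, comp_zero])
      · right
        obtain ⟨f', hf'⟩ := h.descend hp hT hE (b ≫ inv g)
        refine ⟨f', ?_, ?_⟩
        · rw [← sub_eq_zero]
          refine h.cancel hp hT hE _ ?_
          rw [Preadditive.sub_comp, Category.assoc, ← hf', ← Category.assoc, hg]
          simp
        · rw [← sub_eq_zero]
          refine h.cancel hp hT hE _ ?_
          rw [Preadditive.sub_comp, Category.assoc, hg, ← Category.assoc, ← hf']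
          simp
  ne_zero p hp0 := by
    by_cases hp : p = i
    · subst hp
      obtain ⟨e⟩ := h.iso
      apply hS.ne_zero p
      exact ((shiftFunctor D (-1 : ℤ)).map_isZero (hp0.of_iso e.symm)).of_iso
        ((shiftEquiv D (1 : ℤ)).unitIso.app (S p))
    · obtain ⟨E, a, b, c, hT, hE⟩ := h.tri p hp
      -- `S' p = 0` would give `S p ≅ E⟦1⟧`
      apply hS.ne_zero p
      have : IsIso c := (Triangle.isZero₂_iff_isIso₃ _ hT).1 hp0
      have hE1 : cl S {1} (E⟦(1 : ℤ)⟧) := cl_shift_single (by ring) (filt_isoTo_mem hE)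
      have h2 : inv c = 0 := hS.cl_single_hom_zero (by norm_num) hE1 (self_mem_cl S p) _
      rw [IsZero.iff_id_eq_zero, ← IsIso.hom_inv_id c, h2, comp_zero]
  gen X := by
    obtain ⟨e⟩ := h.iso
    refine Filt.trans ?_ (hS.gen X)
    rintro Y ⟨k, m, _, ⟨eY⟩⟩
    refine Filt.of_iso eY.symm ?_
    have key : cl S' Set.univ (S k) := by
      by_cases hk : k = i
      · subst hk
        refine Filt.of_mem ⟨k, -1, trivial, ⟨?_⟩⟩
        exact (shiftEquiv D (1 : ℤ)).unitIso.app (S k) ≪≫ (shiftFunctor D (-1 : ℤ)).mapIso e.symm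
      · obtain ⟨E, a, b, c, hT, hE⟩ := h.tri k hk
        refine Filt.ext₂ _ _ _ (rot_of_distTriang _ hT) ?_ ?_
        · exact cl_mono (Set.subset_univ _) (self_mem_cl S' k)
        · refine Filt.mono ?_ (filt_isoTo_shift 1 hE)
          rintro Z ⟨eZ⟩
          exact ⟨i, 0, trivial, ⟨eZ ≪≫ e.symm ≪≫ ((shiftFunctorZero D ℤ).app (S' i)).symm⟩⟩
    exact cl_shift (J := Set.univ) m (fun _ _ => trivial) key

end EGr
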