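import Pool.Agent.Lib_MP_a23b08_t1.Ext

/-!
# T1-Reorder: in a simple-minded collection the shifts can be reordered
-/

set_option backward.defeqAttrib.useBackward true
set_option backward.isDefEq.respectTransparency false

set_option linter.unusedSectionVars false

open CategoryTheory CategoryTheory.Limits CategoryTheory.Triangulated CategoryTheory.Pretriangulated
open ZeroObject

universe v u

namespace EGr

variable {D : Type u} [Category.{v} D] [Preadditive D] [HasZeroObject D] [HasShift D ℤ]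
  [∀ n : ℤ, (shiftFunctor D n).Additive]

/-- vanishing of `Hom(X, Y⟦c⟧)` gives the vanishing of `Hom(X⟦b⟧, Y⟦c + b⟧)` -/
theorem shift_hom_zero {X Y : D} {a b c : ℤ} (h : c + b = a) (H : ∀ g : X ⟶ Y⟦c⟧, g = 0)
    (f : X⟦b⟧ ⟶ Y⟦a⟧) : f = 0 := by
  have h1 : f ≫ (shiftFunctorAdd' D c b a h).hom.app Y = 0 := by
    obtain ⟨g, hg⟩ := (shiftFunctor D b).map_surjective (f ≫ (shiftFunctorAdd' D c b a h).hom.app Y)
    rw [← hg, H g, Functor.map_zero]
  rw [← cancel_mono ((shiftFunctorAdd' D c b a h).hom.app Y), h1, zero_comp]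

/-- the same, from the vanishing of `Hom(X, Y)` -/
theorem shift_hom_zero' {X Y : D} {a : ℤ} (H : ∀ g : X ⟶ Y, g = 0) (f : X⟦a⟧ ⟶ Y⟦a⟧) : f = 0 := by
  obtain ⟨g, rfl⟩ := (shiftFunctor D a).map_surjective f
  rw [H g, Functor.map_zero]

variable [Pretriangulated D] {ι : Type} {S : ι → D}

theorem IsSMC.hom_lt (hS : IsSMC S) {a b : ℤ} (h : a < b) (i j : ι) (f : (S i)⟦b⟧ ⟶ (S j)⟦a⟧) : f = 0 :=
  shift_hom_zero (c := a - b) (by ring) (hS.hom_neg i j (a - b) (by omega)) f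

theorem IsSMC.hom_eq (hS : IsSMC S) {i j : ι} (hij : i ≠ j) (a : ℤ) (f : (S i)⟦a⟧ ⟶ (S j)⟦a⟧) : f = 0 :=
  shift_hom_zero' (hS.hom_ne i j hij) f

theorem IsSMC.hom_self (hS : IsSMC S) (i : ι) (a : ℤ) (f : (S i)⟦a⟧ ⟶ (S i)⟦a⟧) : f = 0 ∨ IsIso f := by
  obtain ⟨g, rfl⟩ := (shiftFunctor D a).map_surjective f
  rcases hS.zero_or_iso i g with h | h
  · left; rw [h, Functor.map_zero]
  · right; infer_instance

theorem IsSMC.shifts_hom_zero (hS : IsSMC S) {I J : Set ℤ} (hIJ : ∀ a ∈ I, ∀ b ∈ J, b < a) (X Y : D)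
    (hX : shifts S I X) (hY : shifts S J Y) (f : X ⟶ Y) : f = 0 := by
  obtain ⟨i, a, ha, ⟨e⟩⟩ := hX
  obtain ⟨j, b, hb, ⟨e'⟩⟩ := hY
  have h := hS.hom_lt (hIJ a ha b hb) i j (e.inv ≫ f ≫ e'.hom)
  rw [← cancel_epi e.inv, ← cancel_mono e'.hom]
  simpa using h

theorem IsSMC.cl_hom_zero (hS : IsSMC S) {I J : Set ℤ} (hIJ : ∀ a ∈ I, ∀ b ∈ J, b < a) {X Y : D}
    (hX : cl S I X) (hY : cl S J Y) (f : X ⟶ Y) : f = 0 :=
  Filt.hom_zero₂ (hS.shifts_hom_zero hIJ) hX hY f

theorem cl_mono {I J : Set ℤ} (h : I ⊆ J) {X : D} (hX : cl S I X) : cl S J X :=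
  Filt.mono (fun _ ⟨i, m, hm, e⟩ => ⟨i, m, h hm, e⟩) hX

theorem shifts_le_cl {I : Set ℤ} : shifts S I ≤ cl S I := fun _ h => Filt.of_mem h

/-- the basic swap: if `P` is a lower shift, `Q` a higher one and `P ⟶ E ⟶ Q ⟶ P⟦1⟧` is distinguished then `E = 0` or
`E` is also an extension the other way round -/
theorem IsSMC.swap (hS : IsSMC S) {a b : ℤ} (hab : a < b) {i j : ι} {P Q E : D} (eP : P ≅ (S i)⟦a⟧)
    (eQ : Q ≅ (S j)⟦b⟧) (f : P ⟶ E) (g : E ⟶ Q) (h : Q ⟶ P⟦(1 : ℤ)⟧)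
    (hT : Triangle.mk f g h ∈ distTriang D) :
    IsZero E ∨ ∃ (f' : Q ⟶ E) (g' : E ⟶ P) (h' : P ⟶ Q⟦(1 : ℤ)⟧), Triangle.mk f' g' h' ∈ distTriang D := by
  -- `P⟦1⟧ ≅ (S i)⟦a + 1⟧`
  let e1 : P⟦(1 : ℤ)⟧ ≅ (S i)⟦a + 1⟧ :=
    (shiftFunctor D (1 : ℤ)).mapIso eP ≪≫ (shiftFunctorAdd D a 1).symm.app (S i)
  have h0 : h = 0 ∨ IsIso h := by
    rcases eq_or_ne (a + 1) b with hb | hb
    · subst hb
      by_cases hij : j = i
      · subst hij
        rcases hS.hom_self j (a + 1) (eQ.inv ≫ h ≫ e1.hom) with h1 | h1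
        · left
          rw [← cancel_epi eQ.inv, ← cancel_mono e1.hom]
          simpa using h1
        · right
          have : h = eQ.hom ≫ (eQ.inv ≫ h ≫ e1.hom) ≫ e1.inv := by simp
          rw [this]
          infer_instance
      · left
        have h1 := hS.hom_eq hij (a + 1) (eQ.inv ≫ h ≫ e1.hom)
        rw [← cancel_epi eQ.inv, ← cancel_mono e1.hom]
        simpa using h1
    · left
      have h1 := hS.hom_lt (show a + 1 < b by omega) j i (eQ.inv ≫ h ≫ e1.hom)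
      rw [← cancel_epi eQ.inv, ← cancel_mono e1.hom]
      simpa using h1
  rcases h0 with h0 | h0
  · right
    obtain ⟨e, he1, he2⟩ := exists_iso_binaryBiproduct_of_distTriang _ hT h0
    refine ⟨biprod.inr ≫ e.inv, e.hom ≫ biprod.fst, 0, ?_⟩
    refine isomorphic_distinguished _ (binaryBiproductTriangle_distinguished Q P) _ ?_
    exact Triangle.isoMk _ _ (Iso.refl _) (e ≪≫ biprod.braiding P Q) (Iso.refl _)
      (by simp; exact biprod.hom_ext _ _ (by simp) (by simp)) (by simp) (by simp)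
  · left
    exact (Triangle.isZero₂_iff_isIso₃ _ hT).2 h0

section
variable [IsTriangulated D]

theorem IsSMC.shifts_mul_shifts (hS : IsSMC S) {I J : Set ℤ} (hIJ : ∀ a ∈ I, ∀ b ∈ J, b < a) {E : D}
    (hE : ObjectProperty.extensionProduct (shifts S J) (shifts S I) E) :
    IsZero E ∨ ObjectProperty.extensionProduct (shifts S I) (shifts S J) E := by
  obtain ⟨P, Q, f, g, h, hT, ⟨i, a, ha, ⟨eP⟩⟩, ⟨j, b, hb, ⟨eQ⟩⟩⟩ := hE
  rcases hS.swap (hIJ b hb a ha) eP eQ f g h hT with h0 | ⟨f', g', h', hT'⟩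
  · exact Or.inl h0
  · exact Or.inr ⟨Q, P, f', g', h', hT', ⟨j, b, hb, ⟨eQ⟩⟩, ⟨i, a, ha, ⟨eP⟩⟩⟩

theorem cl_mul_cl {I : Set ℤ} : ObjectProperty.extensionProduct (cl S I) (cl S I) ≤ cl S I :=
  fun _ ⟨_, _, f, g, h, hT, hX, hZ⟩ => Filt.ext₂ f g h hT hX hZ

theorem cl_zero {I : Set ℤ} {X : D} (hX : IsZero X) : cl S I X := Filt.zero _ hX

instance {I : Set ℤ} : (cl S I).ContainsZero where
  exists_zero := ⟨0, isZero_zero D, cl_zero (isZero_zero D)⟩

instance {I : Set ℤ} : (cl S I).IsClosedUnderIsomorphisms where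
  of_iso e h := Filt.of_iso e h

/-- `cl J * shifts I ≤ cl I * cl J` if `J < I` -/
theorem IsSMC.cl_mul_shifts (hS : IsSMC S) {I J : Set ℤ} (hIJ : ∀ a ∈ I, ∀ b ∈ J, b < a) {W : D}
    (hW : cl S J W) {Y : D} (hY : ObjectProperty.extensionProduct (isoTo W) (shifts S I) Y) :
    ObjectProperty.extensionProduct (cl S I) (cl S J) Y := by
  induction hW generalizing Y with
  | zero W hW =>
    obtain ⟨P, Q, f, g, h, hT, ⟨e⟩, hQ⟩ := hY
    have : IsIso g := (Triangle.isZero₁_iff_isIso₂ _ hT).1 (hW.of_iso e)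
    exact ObjectProperty.le_extensionProduct_left (Q := cl S J) (P := cl S I) _
      ((cl S I).prop_of_iso (asIso g).symm (shifts_le_cl _ hQ))
  | ext A W B a b c hT' hA hB ih =>
    have h1 : ObjectProperty.extensionProduct (ObjectProperty.extensionProduct (isoTo A) (shifts S J))
        (shifts S I) Y := by
      obtain ⟨P, Q, f, g, h, hT, ⟨e⟩, hQ⟩ := hY
      refine ⟨P, Q, f, g, h, hT, ?_, hQ⟩
      exact ObjectProperty.prop_of_iso _ e.symm ⟨A, B, a, b, c, hT', ⟨Iso.refl _⟩, hB⟩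
    rw [ObjectProperty.extensionProduct_assoc] at h1
    obtain ⟨P, V, f, g, h, hT, hP, hV⟩ := h1
    rcases hS.shifts_mul_shifts hIJ hV with h0 | hV'
    · -- `V = 0`
      have : IsIso f := (Triangle.isZero₃_iff_isIso₁ _ hT).1 h0
      obtain ⟨e⟩ := hP
      exact ObjectProperty.le_extensionProduct_right (Q := cl S J) (P := cl S I) _
        ((cl S J).prop_of_iso (e.symm ≪≫ asIso f) hA)
    · have h2 : ObjectProperty.extensionProduct (isoTo A)
          (ObjectProperty.extensionProduct (shifts S I) (shifts S J)) Y := ⟨P, V, f, g, h, hT, hP, hV'⟩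
      rw [← ObjectProperty.extensionProduct_assoc] at h2
      obtain ⟨U, R, f', g', h', hT'', hU, hR⟩ := h2
      have h3 := ih hU
      have h4 : ObjectProperty.extensionProduct (ObjectProperty.extensionProduct (cl S I) (cl S J))
          (cl S J) Y := ⟨U, R, f', g', h', hT'', h3, shifts_le_cl _ hR⟩
      rw [ObjectProperty.extensionProduct_assoc] at h4
      exact ObjectProperty.monotone_extensionProduct_right _ cl_mul_cl _ h4

/-- the reordering: `cl (I ∪ J) ≤ cl I * cl J` if `J < I` -/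
theorem IsSMC.reorder (hS : IsSMC S) {I J : Set ℤ} (hIJ : ∀ a ∈ I, ∀ b ∈ J, b < a) {X : D}
    (hX : cl S (I ∪ J) X) : ObjectProperty.extensionProduct (cl S I) (cl S J) X := by
  induction hX with
  | zero X hX => exact ObjectProperty.le_extensionProduct_left (Q := cl S J) _ (cl_zero hX)
  | ext A X B f g h hT hA hB ih =>
    obtain ⟨i, m, hm | hm, e⟩ := hB
    · have hB' : shifts S I B := ⟨i, m, hm, e⟩
      -- `(cl I * cl J) * shifts I = cl I * (cl J * shifts I) ≤ cl I * (cl I * cl J)`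
      have h1 : ObjectProperty.extensionProduct (ObjectProperty.extensionProduct (cl S I) (cl S J))
          (shifts S I) X := ⟨A, B, f, g, h, hT, ih, hB'⟩
      rw [ObjectProperty.extensionProduct_assoc] at h1
      have h2 : ObjectProperty.extensionProduct (cl S J) (shifts S I) ≤
          ObjectProperty.extensionProduct (cl S I) (cl S J) := by
        rintro Y ⟨P, Q, f, g, h, hT, hP, hQ⟩
        exact hS.cl_mul_shifts hIJ hP ⟨P, Q, f, g, h, hT, ⟨Iso.refl _⟩, hQ⟩
      have h3 := ObjectProperty.monotone_extensionProduct_right (cl S I) h2 _ h1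
      rw [← ObjectProperty.extensionProduct_assoc] at h3
      exact ObjectProperty.monotone_extensionProduct_left _ cl_mul_cl _ h3
    · have hB' : shifts S J B := ⟨i, m, hm, e⟩
      have h1 : ObjectProperty.extensionProduct (ObjectProperty.extensionProduct (cl S I) (cl S J))
          (cl S J) X := ⟨A, B, f, g, h, hT, ih, shifts_le_cl _ hB'⟩
      rw [ObjectProperty.extensionProduct_assoc] at h1
      exact ObjectProperty.monotone_extensionProduct_right _ cl_mul_cl _ h1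

end

end EGr
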