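import Pool.Agent.Lib_MP_a23b08_t1.Simple

/-!
# T1-Schur: the simple objects of a finite heart are a simple-minded collection
-/

set_option backward.defeqAttrib.useBackward true
set_option backward.isDefEq.respectTransparency false
set_option linter.unusedSectionVars false

open CategoryTheory CategoryTheory.Limits CategoryTheory.Triangulated CategoryTheory.Pretriangulated
open ZeroObject

universe v u

namespace EGr

variable {D : Type u} [Category.{v} D] [Preadditive D] [HasZeroObject D] [HasShift D ℤ]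
  [∀ n : ℤ, (shiftFunctor D n).Additive] [Pretriangulated D] [IsTriangulated D] {ι : Type} {S : ι → D}

/-- Schur's lemma in the heart of a t-structure -/
theorem SimpleIn.schur {t : TStructure D} {X Y : D} (hX : SimpleIn t X) (hY : SimpleIn t Y) (f : X ⟶ Y) :
    f = 0 ∨ IsIso f := by
  obtain ⟨hX1, hX2, hX3⟩ := hX
  obtain ⟨hY1, hY2, hY3⟩ := hY
  obtain ⟨C, u, w, hT⟩ := distinguished_cocone_triangle f
  obtain ⟨K', Q, hK', hQ, a, v, b, hT'⟩ := t.exists_triangle C (-1) 0 (by norm_num)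
  obtain ⟨I, i, r, hI⟩ := distinguished_cocone_triangle₁ (u ≫ v)
  let o := someOctahedron' rfl hT hT' hI
  -- positions of the objects
  have hC1 : t.le 0 C := le₃ t 0 hT (le_mono' t (by norm_num) hX1.1) hY1.1
  have hC2 : t.ge (-1) C := ge₃ t (-1) hT hX1.2 (ge_anti' t (by norm_num) hY1.2)
  have hQ1 : t.le 0 Q := le₃ t 0 hT' (le_mono' t (by norm_num) hK') hC1
  have hK1 : t.ge (-1) K' := ge₁ t (-1) hT' hC2 (ge_anti' t (by norm_num) hQ)
  have hI1 : t.le 0 I := le₂ t 0 o.mem hX1.1 (le_mono' t (by norm_num) hK')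
  have hI2 : t.ge 0 I := ge₁ t 0 hI hY1.2 (ge_anti' t (by norm_num) hQ)
  by_cases hI0 : IsZero I
  · left
    rw [← o.comm₁, hI0.eq_of_tgt o.m₁ 0, zero_comp]
  · right
    have hQ0 : IsZero Q := by
      rcases hY3 I Q i (u ≫ v) r hI ⟨hI1, hI2⟩ ⟨hQ1, hQ⟩ with h | h
      · exact (hI0 h).elim
      · exact h
    have hK0 : IsZero (K'⟦(-1 : ℤ)⟧) := by
      rcases hX3 (K'⟦(-1 : ℤ)⟧) I _ o.m₁ _ (inv_rot_of_distTriang _ o.mem)
        ⟨(le_of_shift t (n := -1) (by ring)).2 hK', (ge_of_shift t (n := -1) (by ring)).2 hK1⟩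
        ⟨hI1, hI2⟩ with h | h
      · exact h
      · exact (hI0 h).elim
    have hK0' : IsZero K' := ((shiftFunctor D (1 : ℤ)).map_isZero hK0).of_iso
      ((shiftEquiv D (1 : ℤ)).counitIso.app K').symm
    have hC0 : IsZero C := by
      have : IsIso a := (Triangle.isZero₃_iff_isIso₁ _ hT').1 hQ0
      exact hK0'.of_iso (asIso a).symm
    exact (Triangle.isZero₃_iff_isIso₁ _ hT).1 hC0

theorem SMList.hom_ne {t : TStructure D} (h : SMList t S) (i j : ι) (hij : i ≠ j) (f : S i ⟶ S j) : f = 0 := by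
  rcases (h.simple i).schur (h.simple j) f with h1 | h1
  · exact h1
  · exact (hij (h.inj i j ⟨asIso f⟩)).elim

theorem SMList.heart_filt {t : TStructure D} (h : SMList t S) {X : D} (hX : t.heart X) :
    Filt (fun Y => ∃ i, Nonempty (Y ≅ S i)) X :=
  Filt.mono (fun _ hY => h.all _ hY) (h.length X hX)

theorem SMList.gen {t : TStructure D} (h : SMList t S) {a b : ℤ} {X : D} (h1 : t.ge a X) (h2 : t.le b X) :
    cl S (Set.Icc (-b) (-a)) X := by
  refine Filt.trans ?_ (filt_heart t a b h1 h2)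
  rintro Y ⟨H, m, hH, hm1, hm2, ⟨e⟩⟩
  refine Filt.of_iso e.symm ?_
  refine Filt.shift m ?_ (h.heart_filt hH)
  rintro Z ⟨i, ⟨e'⟩⟩
  exact Filt.of_mem ⟨i, m, ⟨hm1, hm2⟩, ⟨(shiftFunctor D m).mapIso e'⟩⟩

/-- the simple objects of a finite heart are a simple-minded collection -/
theorem SMList.isSMC {t : TStructure D} (h : SMList t S) : IsSMC S where
  hom_neg i j m hm f := le_zero_of t (a := 0) (b := -m) (by omega) (h.simple i).1.1
    ((ge_of_shift t (n := 0) (by ring)).2 (h.simple j).1.2) f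
  hom_ne := h.hom_ne
  zero_or_iso i f := (h.simple i).schur (h.simple i) f
  ne_zero i := (h.simple i).2.1
  gen X := by
    obtain ⟨a, b, h1, h2⟩ := h.bounded X
    exact cl_mono (Set.subset_univ _) (h.gen h1 h2)

/-- the t-structure of a finite heart is the one of its simple-minded collection -/
theorem SMList.eq_tstr {t : TStructure D} (h : SMList t S) : t = h.isSMC.tstr := by
  refine tstr_ext_heart h.bounded (fun X hX => ?_)
  rw [h.isSMC.heart_iff]
  exact h.heart_filt hX

theorem slist_iff {t : TStructure D} : SMList t S ↔ ∃ h : IsSMC S, t = h.tstr := by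
  constructor
  · intro h
    exact ⟨h.isSMC, h.eq_tstr⟩
  · rintro ⟨h, rfl⟩
    exact h.slist

/-- each finite heart has a complete list of simple objects without repetition -/
theorem IsFiniteHeart.exists_slist {t : TStructure D} (h : IsFiniteHeart t) :
    ∃ (n : ℕ) (S : Fin n → D), SMList t S := by
  classical
  obtain ⟨n, S, hS⟩ := h.finite
  let r : Setoid {i : Fin n // SimpleIn t (S i)} :=
    ⟨fun i j => Nonempty (S i ≅ S j), fun i => ⟨Iso.refl _⟩, fun ⟨e⟩ => ⟨e.symm⟩, fun ⟨e⟩ ⟨e'⟩ => ⟨e ≪≫ e'⟩⟩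
  let e := Fintype.equivFin (Quotient r)
  refine ⟨Fintype.card (Quotient r), fun c => S (e.symm c).out.1, ?_, ?_, ?_, h.bounded, h.length⟩
  · intro c
    exact (e.symm c).out.2
  · intro c d hcd
    have h1 : (e.symm c) = (e.symm d) := by
      rw [← Quotient.out_eq (e.symm c), ← Quotient.out_eq (e.symm d)]
      exact Quotient.sound hcd
    exact e.symm.injective h1
  · intro X hX
    obtain ⟨i, ⟨e'⟩⟩ := hS X hX
    have hi : SimpleIn t (S i) := SimpleIn.of_iso e' hX
    refine ⟨e (Quotient.mk r ⟨i, hi⟩), ?_⟩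
    rw [Equiv.symm_apply_apply]
    have h1 : r (Quotient.out (Quotient.mk r ⟨i, hi⟩)) ⟨i, hi⟩ := Quotient.exact (Quotient.out_eq _)
    obtain ⟨e''⟩ := h1
    exact ⟨e' ≪≫ e''.symm⟩

end EGr
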