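import Pool.Agent.Lib_MP_a23b08_t1.Uniq

/-!
# T1-Simple: the simple objects of the heart of a simple-minded collection are the `S i`
-/

set_option backward.defeqAttrib.useBackward true
set_option backward.isDefEq.respectTransparency false
set_option linter.unusedSectionVars false

open CategoryTheory CategoryTheory.Limits CategoryTheory.Triangulated CategoryTheory.Pretriangulated
open ZeroObject

universe v u

namespace EGr

variable {D : Type u} [Category.{v} D] [Preadditive D] [HasZeroObject D] [HasShift D ℤ]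
  [∀ n : ℤ, (shiftFunctor D n).Additive] [Pretriangulated D] [IsTriangulated D] {ι : Type} {S : ι → D}

theorem IsSMC.nonzero_iso (hS : IsSMC S) {i j : ι} {m : ℤ} {B : D} (e : B ≅ (S i)⟦m⟧) (g : B ⟶ (S j)⟦m⟧) (hg : g ≠ 0) :
    IsIso g := by
  by_cases hij : i = j
  · subst hij
    rcases hS.hom_self i m (e.inv ≫ g) with h | h
    · exfalso
      apply hg
      rw [← cancel_epi e.inv, h, comp_zero]
    · have : g = e.hom ≫ (e.inv ≫ g) := by simp
      rw [this]
      infer_instance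
  · exfalso
    apply hg
    rw [← cancel_epi e.inv, hS.hom_eq hij m (e.inv ≫ g), comp_zero]

/-- a nonzero map from an object of the heart to `S j` has its fibre in the heart -/
theorem IsSMC.fibre_aux (hS : IsSMC S) (m : ℤ) (j : ι) {A : D} (hA : cl S {m} A) (f : A ⟶ (S j)⟦m⟧) (hf : f ≠ 0)
    {K : D} {k : K ⟶ A} {h : (S j)⟦m⟧ ⟶ K⟦(1 : ℤ)⟧} (hT : Triangle.mk k f h ∈ distTriang D) : cl S {m} K := by
  induction hA generalizing K with
  | zero A hA => exact (hf (hA.eq_of_src _ _)).elim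
  | ext A' A B a b c hT' hA' hB ih =>
    obtain ⟨i, m', hm, ⟨e⟩⟩ := hB
    rw [Set.mem_singleton_iff] at hm
    subst hm
    have hB' : shifts S {m'} B := ⟨i, m', rfl, ⟨e⟩⟩
    by_cases hf' : a ≫ f = 0
    · -- `f` factors through `B ≅ (S i)⟦m⟧`
      obtain ⟨g, hg⟩ := Triangle.yoneda_exact₂ _ hT' f hf'
      have hg0 : g ≠ 0 := by
        rintro rfl
        exact hf (by rw [hg]; exact comp_zero)
      have := hS.nonzero_iso e g hg0
      -- the fibre of `f = b ≫ g`, `g` iso, is `A'`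
      have e1 : K ≅ A' := by
        have hT1 := rot_of_distTriang _ hT'
        have hT2 := rot_of_distTriang _ hT
        have iso := isoTriangleOfIso₁₂ _ _ hT2 hT1 (Iso.refl _) (asIso g).symm (by
          change f ≫ (inv g) = 𝟙 _ ≫ b
          rw [hg]
          change (b ≫ g) ≫ inv g = 𝟙 _ ≫ b
          simp)
        have e3 : K⟦(1 : ℤ)⟧ ≅ A'⟦(1 : ℤ)⟧ := Triangle.π₃.mapIso iso
        exact (shiftEquiv D (1 : ℤ)).unitIso.app K ≪≫ (shiftFunctor D (-1 : ℤ)).mapIso e3 ≪≫
          ((shiftEquiv D (1 : ℤ)).unitIso.app A').symm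
      exact Filt.of_iso e1.symm hA'
    · obtain ⟨K', k', h', hT''⟩ := distinguished_cocone_triangle₁ (a ≫ f)
      have hK' := ih (a ≫ f) hf' hT''
      let o := someOctahedron rfl hT' (rot_of_distTriang _ hT) (rot_of_distTriang _ hT'')
      have h1 := rot_of_distTriang _ o.mem
      have h2 : cl S {m' + 1} (K⟦(1 : ℤ)⟧) := by
        refine Filt.ext₂ _ _ _ h1 ?_ ?_
        · exact cl_shift 1 (fun x hx => by
            rw [Set.mem_singleton_iff] at hx ⊢; omega) hK'
        · exact cl_shift 1 (fun x hx => by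
            rw [Set.mem_singleton_iff] at hx ⊢; omega) (shifts_le_cl _ hB')
      exact cl_of_shift 1 (fun x hx => by
            rw [Set.mem_singleton_iff] at hx ⊢; omega) h2

/-- a nonzero map from an object of the heart to `S j` has its fibre in the heart -/
theorem IsSMC.fibre (hS : IsSMC S) (j : ι) {A : D} (hA : hS.tstr.heart A) (f : A ⟶ S j) (hf : f ≠ 0)
    {K : D} {k : K ⟶ A} {h : S j ⟶ K⟦(1 : ℤ)⟧} (hT : Triangle.mk k f h ∈ distTriang D) : hS.tstr.heart K := by
  rw [hS.tstr_heart] at hA ⊢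
  let e : (S j)⟦(0 : ℤ)⟧ ≅ S j := (shiftFunctorZero D ℤ).app (S j)
  refine hS.fibre_aux 0 j hA (f ≫ e.inv) (fun h0 => hf ?_) (k := k) (h := e.hom ≫ h) ?_
  · rw [← cancel_mono e.inv, h0, zero_comp]
  · exact isomorphic_distinguished _ hT _ (Triangle.isoMk _ _ (Iso.refl _) (Iso.refl _) e
      (by simp) (by simp) (by simp))

theorem heart_of_iso {t : TStructure D} {X Y : D} (e : X ≅ Y) (h : t.heart X) : t.heart Y :=
  t.heart.prop_of_iso e h

theorem IsSMC.mem_heart (hS : IsSMC S) (i : ι) : hS.tstr.heart (S i) := by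
  rw [hS.heart_iff]
  exact Filt.of_mem ⟨i, ⟨Iso.refl _⟩⟩

theorem heart_hom_shift_zero (t : TStructure D) {A B : D} (hA : t.heart A) (hB : t.heart B) {m : ℤ} (hm : 0 < m)
    (f : A⟦m⟧ ⟶ B) : f = 0 :=
  le_zero_of t (a := -m) (b := 0) (by omega) ((le_of_shift t (n := 0) (by ring)).2 hA.1) hB.2 f

/-- the objects `S i` are simple in the heart -/
theorem IsSMC.simple (hS : IsSMC S) (i : ι) : SimpleIn hS.tstr (S i) := by
  refine ⟨hS.mem_heart i, hS.ne_zero i, ?_⟩
  intro A B f g h hT hA hB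
  by_cases hf : f = 0
  · left
    exact (isIso_of_zero hT hf (fun r => heart_hom_shift_zero _ hA hB (by norm_num) r)).1
  · right
    obtain ⟨K, k, h', hT'⟩ := distinguished_cocone_triangle₁ f
    have hK := hS.fibre i hA f hf hT'
    have iso := isoTriangleOfIso₁₂ _ _ hT (rot_of_distTriang _ hT') (Iso.refl _) (Iso.refl _) (by
      change f ≫ 𝟙 _ = 𝟙 _ ≫ f
      simp)
    have e3 : B ≅ K⟦(1 : ℤ)⟧ := Triangle.π₃.mapIso iso
    rw [IsZero.iff_id_eq_zero]
    refine le_zero_of hS.tstr (a := -1) (b := 0) (by norm_num) ?_ hB.2 _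
    exact (hS.tstr.le (-1)).prop_of_iso e3.symm ((le_of_shift _ (n := 0) (by ring)).2 hK.1)

/-- each simple object of the heart is isomorphic to some `S i` -/
theorem IsSMC.simple_iso (hS : IsSMC S) {X : D} (hX : SimpleIn hS.tstr X) : ∃ i, Nonempty (X ≅ S i) := by
  obtain ⟨h1, h2, h3⟩ := hX
  rw [hS.heart_iff] at h1
  cases h1 with
  | zero _ h => exact (h2 h).elim
  | ext A X B f g h hT hA hB =>
    obtain ⟨i, ⟨e⟩⟩ := hB
    have hB0 : ¬ IsZero B := fun h0 => hS.ne_zero i (h0.of_iso e.symm)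
    have hB1 : hS.tstr.heart B := heart_of_iso e.symm (hS.mem_heart i)
    have hA1 : hS.tstr.heart A := (hS.heart_iff A).2 hA
    rcases h3 A B f g h hT hA1 hB1 with h4 | h4
    · have : IsIso g := (Triangle.isZero₁_iff_isIso₂ _ hT).1 h4
      exact ⟨i, ⟨asIso g ≪≫ e⟩⟩
    · exact (hB0 h4).elim

/-- `S` is a complete list, without repetition, of the simple objects of the finite heart of `t` -/
structure SMList (t : TStructure D) (S : ι → D) : Prop where
  simple : ∀ i, SimpleIn t (S i)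
  inj : ∀ i j, Nonempty (S i ≅ S j) → i = j
  all : ∀ X, SimpleIn t X → ∃ i, Nonempty (X ≅ S i)
  bounded : Bdd t
  length : ∀ X, t.heart X → Filt (SimpleIn t) X

theorem SMList.isFiniteHeart {t : TStructure D} {n : ℕ} {S : Fin n → D} (h : SMList t S) : IsFiniteHeart t :=
  ⟨h.bounded, h.length, ⟨n, S, h.all⟩⟩

theorem IsSMC.inj (hS : IsSMC S) {i j : ι} (h : Nonempty (S i ≅ S j)) : i = j := by
  by_contra hij
  obtain ⟨e⟩ := h
  have h0 := hS.hom_ne i j hij e.hom
  apply hS.ne_zero i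
  rw [IsZero.iff_id_eq_zero, ← e.hom_inv_id, h0, zero_comp]

theorem IsSMC.slist (hS : IsSMC S) : SMList hS.tstr S where
  simple := hS.simple
  inj _ _ h := hS.inj h
  all _ h := hS.simple_iso h
  bounded := hS.bounded
  length X hX := by
    rw [hS.heart_iff] at hX
    refine Filt.mono ?_ hX
    rintro Y ⟨i, ⟨e⟩⟩
    obtain ⟨h1, h2, h3⟩ := hS.simple i
    refine ⟨heart_of_iso e.symm h1, fun h0 => h2 (h0.of_iso e.symm), ?_⟩
    intro A B f g h hT hA hB
    refine h3 A B (f ≫ e.hom) (e.inv ≫ g) h ?_ hA hB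
    exact isomorphic_distinguished _ hT _ (Triangle.isoMk _ _ (Iso.refl _) e.symm (Iso.refl _)
      (by simp) (by simp) (by simp))

theorem SimpleIn.of_iso {t : TStructure D} {X Y : D} (e : X ≅ Y) (h : SimpleIn t X) : SimpleIn t Y := by
  obtain ⟨h1, h2, h3⟩ := h
  refine ⟨heart_of_iso e h1, fun h0 => h2 (h0.of_iso e), ?_⟩
  intro A B f g h hT hA hB
  refine h3 A B (f ≫ e.inv) (e.hom ≫ g) h ?_ hA hB
  exact isomorphic_distinguished _ hT _ (Triangle.isoMk _ _ (Iso.refl _) e (Iso.refl _)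
    (by simp) (by simp) (by simp))

end EGr
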