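import Pool.Agent.Lib_MP_a23b08_t1.Reorder

/-!
# T1-TStr: the bounded t-structure of a simple-minded collection

`le n = cl S {m ≥ -n}`, `ge n = cl S {m ≤ -n}`; the heart is `cl S {0}`.
-/

set_option backward.defeqAttrib.useBackward true
set_option backward.isDefEq.respectTransparency false
set_option linter.unusedSectionVars false

open CategoryTheory CategoryTheory.Limits CategoryTheory.Triangulated CategoryTheory.Pretriangulated
open ZeroObject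

universe v u

namespace EGr

variable {D : Type u} [Category.{v} D] [Preadditive D] [HasZeroObject D] [HasShift D ℤ]
  [∀ n : ℤ, (shiftFunctor D n).Additive] [Pretriangulated D] [IsTriangulated D] {ι : Type} {S : ι → D}

theorem cl_shift {I J : Set ℤ} (a : ℤ) (h : ∀ m ∈ I, m + a ∈ J) {X : D} (hX : cl S I X) : cl S J (X⟦a⟧) := by
  refine Filt.shift a ?_ hX
  rintro Y ⟨i, m, hm, ⟨e⟩⟩
  exact shifts_le_cl _ ⟨i, m + a, h m hm, ⟨(shiftFunctor D a).mapIso e ≪≫ (shiftFunctorAdd D m a).symm.app (S i)⟩⟩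

theorem cl_of_shift {I J : Set ℤ} (a : ℤ) (h : ∀ m ∈ I, m - a ∈ J) {X : D} (hX : cl S I (X⟦a⟧)) : cl S J X := by
  have h1 : cl S J ((X⟦a⟧)⟦-a⟧) := cl_shift (-a) (fun m hm => h m hm) hX
  exact h1.of_iso ((shiftEquiv D a).unitIso.symm.app X)

/-- the t-structure of a simple-minded collection -/
def IsSMC.tstr (hS : IsSMC S) : TStructure D where
  le n := cl S (Set.Ici (-n))
  ge n := cl S (Set.Iic (-n))
  le_isClosedUnderIsomorphisms n := inferInstance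
  ge_isClosedUnderIsomorphisms n := inferInstance
  le_shift n a n' h X hX := cl_shift a (fun m hm => by
    rw [Set.mem_Ici] at hm ⊢; omega) hX
  ge_shift n a n' h X hX := cl_shift a (fun m hm => by
    rw [Set.mem_Iic] at hm ⊢; omega) hX
  zero' X Y f hX hY := hS.cl_hom_zero (fun a ha b hb => by
    rw [Set.mem_Ici] at ha; rw [Set.mem_Iic] at hb; omega) hX hY f
  le_zero_le X hX := cl_mono (fun m hm => by rw [Set.mem_Ici] at hm ⊢; omega) hX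
  ge_one_le X hX := cl_mono (fun m hm => by rw [Set.mem_Iic] at hm ⊢; omega) hX
  exists_triangle_zero_one A := by
    have h1 : cl S (Set.Ici (-0) ∪ Set.Iic (-1)) A := cl_mono (fun m _ => by
      rw [Set.mem_union, Set.mem_Ici, Set.mem_Iic]; omega) (hS.gen A)
    obtain ⟨X, Y, f, g, h, hT, hX, hY⟩ := hS.reorder (fun a ha b hb => by
      rw [Set.mem_Ici] at ha; rw [Set.mem_Iic] at hb; omega) h1
    exact ⟨X, Y, hX, hY, f, g, h, hT⟩

theorem IsSMC.tstr_le (hS : IsSMC S) (n : ℤ) (X : D) : hS.tstr.le n X ↔ cl S (Set.Ici (-n)) X := Iff.rfl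

theorem IsSMC.tstr_ge (hS : IsSMC S) (n : ℤ) (X : D) : hS.tstr.ge n X ↔ cl S (Set.Iic (-n)) X := Iff.rfl

/-- a distinguished triangle `U ⟶ X ⟶ H ⟶ U⟦1⟧` with first map zero and no maps `U⟦1⟧ ⟶ H`: then `X ≅ H` -/
theorem isIso_of_zero {U X H : D} {f : U ⟶ X} {g : X ⟶ H} {h : H ⟶ U⟦(1 : ℤ)⟧}
    (hT : Triangle.mk f g h ∈ distTriang D) (hf : f = 0) (hU : ∀ r : U⟦(1 : ℤ)⟧ ⟶ H, r = 0) : IsZero U ∧ IsIso g := by
  have h1 : ∃ r : U⟦(1 : ℤ)⟧ ⟶ H, 𝟙 (U⟦(1 : ℤ)⟧) = r ≫ h :=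
    Triangle.coyoneda_exact₁ _ hT (𝟙 (U⟦(1 : ℤ)⟧)) (by
      change 𝟙 _ ≫ (f⟦(1 : ℤ)⟧') = 0
      rw [hf, Functor.map_zero, comp_zero])
  obtain ⟨r, hr⟩ := h1
  have h2 : IsZero (U⟦(1 : ℤ)⟧) := by
    rw [IsZero.iff_id_eq_zero, hr, hU r, zero_comp]
  have h3 : IsZero U := ((shiftFunctor D (-1 : ℤ)).map_isZero h2).of_iso
    ((shiftEquiv D (1 : ℤ)).unitIso.app U)
  exact ⟨h3, (Triangle.isZero₁_iff_isIso₂ _ hT).1 h3⟩

/-- a distinguished triangle `U ⟶ X ⟶ H ⟶ U⟦1⟧` with second map zero and no maps `U ⟶ H⟦-1⟧`, in the form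
`U⟦1⟧ ⟶ H` zero: then `U ≅ X` -/
theorem isIso_of_zero' {U X H : D} {f : U ⟶ X} {g : X ⟶ H} {h : H ⟶ U⟦(1 : ℤ)⟧}
    (hT : Triangle.mk f g h ∈ distTriang D) (hg : g = 0) (hU : ∀ r : U⟦(1 : ℤ)⟧ ⟶ H, r = 0) : IsZero H ∧ IsIso f := by
  have h1 : ∃ r : U⟦(1 : ℤ)⟧ ⟶ H, 𝟙 H = h ≫ r :=
    Triangle.yoneda_exact₃ _ hT (𝟙 H) (by
      change g ≫ 𝟙 H = 0
      rw [hg, zero_comp])
  obtain ⟨r, hr⟩ := h1
  have h2 : IsZero H := by
    rw [IsZero.iff_id_eq_zero, hr, hU r, comp_zero]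
  exact ⟨h2, (Triangle.isZero₃_iff_isIso₁ _ hT).1 h2⟩

theorem IsSMC.cl_inter (hS : IsSMC S) (n : ℤ) {X : D} (h1 : cl S (Set.Ici n) X) (h2 : cl S (Set.Iic n) X) :
    cl S {n} X := by
  have h3 : cl S (Set.Ici (n + 1) ∪ {n}) X := cl_mono (fun m hm => by
    rw [Set.mem_Ici] at hm
    rw [Set.mem_union, Set.mem_Ici, Set.mem_singleton_iff]; omega) h1
  obtain ⟨U, H, f, g, h, hT, hU, hH⟩ := hS.reorder (fun a ha b hb => by
    rw [Set.mem_Ici] at ha; rw [Set.mem_singleton_iff] at hb; omega) h3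
  have hf : f = 0 := hS.cl_hom_zero (fun a ha b hb => by
    rw [Set.mem_Ici] at ha; rw [Set.mem_Iic] at hb; omega) hU h2 f
  have hU1 : cl S (Set.Ici (n + 2)) (U⟦(1 : ℤ)⟧) := cl_shift 1 (fun m hm => by
    rw [Set.mem_Ici] at hm ⊢; omega) hU
  obtain ⟨_, h4⟩ := isIso_of_zero hT hf (fun r => hS.cl_hom_zero (fun a ha b hb => by
    rw [Set.mem_Ici] at ha; rw [Set.mem_singleton_iff] at hb; omega) hU1 hH r)
  exact hH.of_iso (asIso g).symm

theorem IsSMC.tstr_heart (hS : IsSMC S) (X : D) : hS.tstr.heart X ↔ cl S {0} X := by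
  constructor
  · rintro ⟨h1, h2⟩
    exact hS.cl_inter 0 h1 h2
  · intro h
    exact ⟨cl_mono (fun m hm => by rw [Set.mem_singleton_iff] at hm; rw [Set.mem_Ici]; omega) h,
      cl_mono (fun m hm => by rw [Set.mem_singleton_iff] at hm; rw [Set.mem_Iic]; omega) h⟩

theorem IsSMC.heart_iff (hS : IsSMC S) (X : D) : hS.tstr.heart X ↔ Filt (fun Y => ∃ i, Nonempty (Y ≅ S i)) X := by
  rw [hS.tstr_heart]
  constructor
  · intro h
    refine Filt.mono ?_ h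
    rintro Y ⟨i, m, hm, ⟨e⟩⟩
    rw [Set.mem_singleton_iff] at hm
    subst hm
    exact ⟨i, ⟨e ≪≫ (shiftFunctorZero D ℤ).app (S i)⟩⟩
  · intro h
    refine Filt.mono ?_ h
    rintro Y ⟨i, ⟨e⟩⟩
    exact ⟨i, 0, rfl, ⟨e ≪≫ ((shiftFunctorZero D ℤ).app (S i)).symm⟩⟩

theorem IsSMC.bounded (hS : IsSMC S) (X : D) : ∃ a b : ℤ, hS.tstr.ge a X ∧ hS.tstr.le b X := by
  have h : cl S Set.univ X := hS.gen X
  induction h with
  | zero X hX => exact ⟨0, 0, cl_zero hX, cl_zero hX⟩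
  | ext A X B f g h hT hA hB ih =>
    obtain ⟨a, b, ha, hb⟩ := ih
    obtain ⟨i, m, _, e⟩ := hB
    refine ⟨min a (-m), max b (-m), ?_, ?_⟩
    · refine Filt.ext₂ f g h hT (cl_mono (fun x hx => ?_) ha) (shifts_le_cl _ ⟨i, m, ?_, e⟩)
      · rw [Set.mem_Iic] at hx ⊢; omega
      · rw [Set.mem_Iic]; omega
    · refine Filt.ext₂ f g h hT (cl_mono (fun x hx => ?_) hb) (shifts_le_cl _ ⟨i, m, ?_, e⟩)
      · rw [Set.mem_Ici] at hx ⊢; omega
      · rw [Set.mem_Ici]; omega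

end EGr
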