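import Pool.Agent.Lib_MP_a23b08_t1.Univ

/-!
# T1-Tilt: the t-structure of the mutated collection is the forward tilt
-/

set_option backward.defeqAttrib.useBackward true
set_option backward.isDefEq.respectTransparency false
set_option linter.unusedSectionVars false
set_option linter.unusedVariables false

open CategoryTheory CategoryTheory.Limits CategoryTheory.Triangulated CategoryTheory.Pretriangulated
open ZeroObject

universe v u

namespace EGr

variable {D : Type u} [Category.{v} D] [Preadditive D] [HasZeroObject D] [HasShift D ℤ]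
  [∀ n : ℤ, (shiftFunctor D n).Additive] [Pretriangulated D] [IsTriangulated D] {ι : Type} {S S' : ι → D} {i : ι}

/-- the aisle of the mutation -/
theorem MutData.le_iff (hS : IsSMC S) (h : MutData S S' i) (X : D) :
    (h.isSMC hS).tstr.le 0 X ↔ hS.tstr.le 0 X ∧ ∀ f : X ⟶ S i, f = 0 := by
  constructor
  · intro hX
    refine ⟨?_, ?_⟩
    · refine filt_le hS.tstr 0 ?_ hX
      rintro Y ⟨j, m, hm, ⟨e⟩⟩
      rw [Set.mem_Ici] at hm
      refine (hS.tstr.le 0).prop_of_iso e.symm ?_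
      exact cl_shift m (fun x hx => by rw [Set.mem_Icc] at hx; rw [Set.mem_Ici]; omega) (h.mem j)
    · refine Filt.hom_zero ?_ hX
      rintro Y ⟨j, m, hm, ⟨e⟩⟩ f
      rw [Set.mem_Ici] at hm
      rw [← cancel_epi e.inv, comp_zero]
      by_cases hj : j = i
      · subst hj
        exact hS.cl_single_hom_zero (a := 1 + m) (b := 0) (by omega) (cl_shift_single rfl h.mem_self)
          (self_mem_cl S j) _
      · rcases (show 0 ≤ m by omega).eq_or_lt with hm0 | hm0
        · subst hm0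
          let e0 : (S' j)⟦(0 : ℤ)⟧ ≅ S' j := (shiftFunctorZero D ℤ).app (S' j)
          rw [← cancel_epi e0.inv, h.hom0 j hj (e0.inv ≫ e.inv ≫ f), comp_zero]
        · exact hS.cl_single_hom_zero (a := 0 + m) (b := 0) (by omega) (cl_shift_single rfl (h.mem_ne hj))
            (self_mem_cl S i) _
  · rintro ⟨hX, hX0⟩
    rw [le_iff_orth]
    intro Y f hY
    -- `Y` is built from the `(S' j)⟦m⟧`, `m ≤ -1`
    refine Filt.zero_hom ?_ hY f
    rintro Z ⟨j, m, hm, ⟨e⟩⟩ g
    rw [Set.mem_Iic] at hm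
    rw [← cancel_mono e.hom, zero_comp]
    by_cases hj : j = i
    · subst hj
      obtain ⟨e'⟩ := h.iso
      by_cases hm1 : m = -1
      · subst hm1
        let e1 : (S' j)⟦(-1 : ℤ)⟧ ≅ S j := (shiftFunctor D (-1 : ℤ)).mapIso e' ≪≫
          ((shiftEquiv D (1 : ℤ)).unitIso.app (S j)).symm
        rw [← cancel_mono e1.hom, hX0 ((g ≫ e.hom) ≫ e1.hom), zero_comp]
      · exact hS.cl_hom_zero (fun x hx y hy => by
          rw [Set.mem_Ici] at hx; rw [Set.mem_singleton_iff] at hy; omega) hX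
          (cl_shift_single (a := 1) (b := 1 + m) rfl h.mem_self) _
    · exact hS.cl_hom_zero (fun x hx y hy => by
          rw [Set.mem_Ici] at hx; rw [Set.mem_singleton_iff] at hy; omega) hX
          (cl_shift_single (a := 0) (b := 0 + m) rfl (h.mem_ne hj)) _

/-- left-built extension closure -/
inductive FiltL (P : D → Prop) : D → Prop
  | zero (X : D) (hX : IsZero X) : FiltL P X
  | ext (A X B : D) (f : A ⟶ X) (g : X ⟶ B) (h : B ⟶ A⟦(1 : ℤ)⟧)
      (hT : Triangle.mk f g h ∈ distTriang D) (hA : P A) (hB : FiltL P B) : FiltL P X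

theorem FiltL.of_iso {P : D → Prop} {X Y : D} (e : X ≅ Y) (hX : FiltL P X) : FiltL P Y := by
  induction hX generalizing Y with
  | zero X hX => exact FiltL.zero _ (hX.of_iso e.symm)
  | ext A B Z f g h hT hA hZ ih =>
    refine FiltL.ext A Y Z (f ≫ e.hom) (e.inv ≫ g) h ?_ hA hZ
    exact isomorphic_distinguished _ hT _ (Triangle.isoMk _ _ (Iso.refl _) e.symm (Iso.refl _)
      (by simp) (by simp) (by simp))

theorem FiltL.ext₂ {P : D → Prop} {X Y Z : D} (f : X ⟶ Y) (g : Y ⟶ Z)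
    (h : Z ⟶ X⟦(1 : ℤ)⟧) (hT : Triangle.mk f g h ∈ distTriang D) (hX : FiltL P X) (hZ : FiltL P Z) :
    FiltL P Y := by
  induction hX generalizing Y Z with
  | zero X hX =>
    have : IsIso g := (Triangle.isZero₁_iff_isIso₂ _ hT).1 hX
    exact hZ.of_iso (asIso g).symm
  | ext A B C a b c hT' hA hC ih =>
    obtain ⟨W, g'', h'', hT''⟩ := distinguished_cocone_triangle (a ≫ f)
    let o := someOctahedron rfl hT' hT hT''
    exact FiltL.ext _ _ _ _ _ _ hT'' hA (ih _ _ _ o.mem hZ)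

theorem Filt.toL {P : D → Prop} {X : D} (hX : Filt P X) : FiltL P X := by
  induction hX with
  | zero X hX => exact FiltL.zero _ hX
  | ext A X B f g h hT hA hB ih =>
    exact FiltL.ext₂ f g h hT ih (FiltL.ext _ _ _ _ _ _ (contractible_distinguished B) hB
      (FiltL.zero _ (isZero_zero D)))

theorem FiltL.toFilt {P : D → Prop} {X : D} (hX : FiltL P X) : Filt P X := by
  induction hX with
  | zero X hX => exact Filt.zero _ hX
  | ext A X B f g h hT hA hB ih => exact Filt.ext₂ f g h hT (Filt.of_mem hA) ih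

/-- each object of the heart has a torsion sequence `T ⟶ X ⟶ F` with `F` in `Filt (S i)` and `Hom(T, S i) = 0` -/
theorem IsSMC.torsion (hS : IsSMC S) (i : ι) {X : D} (hX : hS.tstr.heart X) :
    ∃ (T F : D) (f : T ⟶ X) (g : X ⟶ F) (h : F ⟶ T⟦(1 : ℤ)⟧), Triangle.mk f g h ∈ distTriang D ∧
      hS.tstr.heart T ∧ Filt (isoTo (S i)) F ∧ ∀ r : T ⟶ S i, r = 0 := by
  have hX' := ((hS.heart_iff X).1 hX).toL
  clear hX
  induction hX' with
  | zero X hX =>
    refine ⟨X, 0, 𝟙 X, 0, 0, contractible_distinguished X, ?_, Filt.zero _ (isZero_zero D),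
      fun r => hX.eq_of_src _ _⟩
    exact (hS.heart_iff X).2 (Filt.zero _ hX)
  | ext A X B a b c hT hA hB ih =>
    obtain ⟨l, ⟨eA⟩⟩ := hA
    obtain ⟨T₁, F₁, f₁, g₁, h₁, hT₁, hT₁h, hF₁, hT₁0⟩ := ih
    have hAh : hS.tstr.heart A := heart_of_iso eA.symm (hS.mem_heart l)
    -- `T' = fibre of X ⟶ B ⟶ F₁`
    obtain ⟨T', f', h', hT'⟩ := distinguished_cocone_triangle₁ (b ≫ g₁)
    let o := someOctahedron' rfl hT hT₁ hT'
    -- `A ⟶ T' ⟶ T₁`
    have hT'h : hS.tstr.heart T' := by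
      rw [hS.tstr_heart] at hAh hT₁h ⊢
      exact Filt.ext₂ _ _ _ o.mem hAh hT₁h
    by_cases hz : ∀ r : T' ⟶ S i, r = 0
    · exact ⟨T', F₁, f', b ≫ g₁, h', hT', hT'h, hF₁, hz⟩
    · push Not at hz
      obtain ⟨r, hr⟩ := hz
      have h0 : o.m₁ ≫ r ≠ 0 := by
        intro h0
        obtain ⟨s, hs⟩ := Triangle.yoneda_exact₂ _ o.mem r h0
        apply hr
        rw [hs, hT₁0 s]
        exact comp_zero
      have hli : l = i := by
        by_contra hli
        apply h0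
        rw [← cancel_epi eA.inv, hS.hom_ne l i hli (eA.inv ≫ o.m₁ ≫ r), comp_zero]
      subst hli
      have hiso : IsIso (o.m₁ ≫ r) := by
        rcases hS.zero_or_iso l (eA.inv ≫ (o.m₁ ≫ r)) with h1 | h1
        · exfalso
          apply h0
          rw [← cancel_epi eA.inv, h1, comp_zero]
        · have : o.m₁ ≫ r = eA.hom ≫ (eA.inv ≫ (o.m₁ ≫ r)) := by simp
          rw [this]
          infer_instance
      -- the fibre `K` of `r`
      obtain ⟨K, κ, hκ, hK⟩ := distinguished_cocone_triangle₁ r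
      have hKh : hS.tstr.heart K := hS.fibre l hT'h r hr hK
      -- `K⟦1⟧ ≅ T₁⟦1⟧`
      obtain ⟨Z, z, z', hZ⟩ := distinguished_cocone_triangle (o.m₁ ≫ r)
      have hZ0 : IsZero Z := (Triangle.isZero₃_iff_isIso₁ _ hZ).2 hiso
      let o' := someOctahedron rfl o.mem (rot_of_distTriang _ hK) hZ
      have h3 := (Triangle.isZero₂_iff_isIso₃ _ o'.mem).1 hZ0
      have hK0 : ∀ s : K ⟶ S l, s = 0 := by
        intro s
        have e : K⟦(1 : ℤ)⟧ ≅ T₁⟦(1 : ℤ)⟧ := @asIso _ _ _ _ _ h3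
        have h4 : ∀ w : T₁⟦(1 : ℤ)⟧ ⟶ (S l)⟦(1 : ℤ)⟧, w = 0 := fun w => shift_hom_zero' hT₁0 w
        apply (shiftFunctor D (1 : ℤ)).map_injective
        rw [← cancel_epi e.inv, h4 (e.inv ≫ (shiftFunctor D (1 : ℤ)).map s), Functor.map_zero, comp_zero]
      -- `K ⟶ T' ⟶ X` with cone `F`
      obtain ⟨F, φ, φ', hF⟩ := distinguished_cocone_triangle (κ ≫ f')
      let o'' := someOctahedron rfl hK hT' hF
      refine ⟨K, F, κ ≫ f', φ, φ', hF, hKh, ?_, hK0⟩
      exact Filt.ext₂ _ _ _ o''.mem (Filt.of_mem ⟨Iso.refl _⟩) hF₁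

/-- the t-structure of the mutation is the forward tilt -/
theorem MutData.isFwdTilt (hS : IsSMC S) (h : MutData S S' i) : IsFwdTilt hS.tstr (S i) (h.isSMC hS).tstr := by
  refine ⟨hS.simple i, fun X => ⟨fun hX => ?_, ?_⟩⟩
  · have hX1 := (h.le_iff hS X).1 hX.1
    have hX2 : cl S (Set.Icc 0 1) X := by
      have h1 := ((h.isSMC hS).tstr_heart X).1 hX
      refine Filt.trans ?_ h1
      rintro Y ⟨j, m, hm, ⟨e⟩⟩
      rw [Set.mem_singleton_iff] at hm
      subst hm
      exact Filt.of_iso (e ≪≫ (shiftFunctorZero D ℤ).app (S' j)).symm (h.mem j)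
    have hX3 : cl S ({1} ∪ {0}) X := cl_mono (fun x hx => by
      rw [Set.mem_Icc] at hx
      rw [Set.mem_union, Set.mem_singleton_iff, Set.mem_singleton_iff]; omega) hX2
    obtain ⟨U, T, a, b, c, hT, hU, hTh⟩ := hS.reorder (fun x hx y hy => by
      rw [Set.mem_singleton_iff] at hx hy; omega) hX3
    have hT0 : ∀ r : T ⟶ S i, r = 0 := by
      intro r
      obtain ⟨s, hs⟩ := Triangle.yoneda_exact₃ _ hT r (hX1.2 _)
      rw [hs, hS.cl_single_hom_zero (a := 1 + 1) (b := 0) (by norm_num) (cl_shift_single rfl hU)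
        (self_mem_cl S i) s]
      exact comp_zero
    have hTh' : hS.tstr.heart T := (hS.tstr_heart T).2 hTh
    let e : U ≅ (U⟦(-1 : ℤ)⟧)⟦(1 : ℤ)⟧ := ((shiftEquiv D (1 : ℤ)).counitIso.app U).symm
    have hF : hS.tstr.heart (U⟦(-1 : ℤ)⟧) := (hS.tstr_heart _).2 (cl_shift_single (by norm_num) hU)
    obtain ⟨T'', F'', f, g, q, hT'', hT''h, hF'', hT''0⟩ := hS.torsion i hF
    -- `T''⟦1⟧ ⟶ U ⟶ X` is zero
    have hT''le : (h.isSMC hS).tstr.le (-1) (T''⟦(1 : ℤ)⟧) :=
      (le_of_shift _ (n := 0) (by ring)).2 ((h.le_iff hS T'').2 ⟨hT''h.1, hT''0⟩)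
    have h1 : (f⟦(1 : ℤ)⟧' ≫ e.inv) ≫ a = 0 := le_zero_of _ (by norm_num) hT''le hX.2 _
    have h2 : f⟦(1 : ℤ)⟧' ≫ e.inv = 0 := by
      obtain ⟨s, hs⟩ := Triangle.coyoneda_exact₂ _ (inv_rot_of_distTriang _ hT) (f⟦(1 : ℤ)⟧' ≫ e.inv) h1
      have hs0 : s = 0 := by
        refine hS.cl_single_hom_zero (a := 0 + 1) (b := 0 + -1) (by norm_num)
          (cl_shift_single rfl ((hS.tstr_heart _).1 hT''h)) ?_ s
        exact cl_shift_single rfl hTh
      rw [hs, hs0]
      exact zero_comp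
    have hf0 : f = 0 := by
      apply (shiftFunctor D (1 : ℤ)).map_injective
      rw [← cancel_mono e.inv, h2, Functor.map_zero, zero_comp]
    have h3 := isIso_of_zero hT'' hf0 (fun r => by
      refine heart_hom_shift_zero hS.tstr hT''h ?_ (by norm_num) r
      exact (hS.tstr_heart _).2 (filt_isoTo_mem hF''))
    have := h3.2
    refine ⟨U⟦(-1 : ℤ)⟧, T, e.inv ≫ a, b, c ≫ e.hom⟦(1 : ℤ)⟧', ?_, hF''.of_iso (asIso g).symm, hTh', hT0⟩
    exact isomorphic_distinguished _ hT _ (Triangle.isoMk _ _ e.symm (Iso.refl _) (Iso.refl _)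
      (by simp) (by simp) (by
        simp only [Triangle.mk_mor₃, Iso.refl_hom, Category.id_comp, Category.assoc]
        rw [← Functor.map_comp]
        simp))
  · rintro ⟨A, B, f, g, q, hT, hA, hB, hB0⟩
    have h1 : (h.isSMC hS).tstr.heart (A⟦(1 : ℤ)⟧) := by
      rw [(h.isSMC hS).heart_iff]
      obtain ⟨e⟩ := h.iso
      refine Filt.mono ?_ (filt_isoTo_shift 1 hA)
      rintro Y ⟨e'⟩
      exact ⟨i, ⟨e' ≪≫ e.symm⟩⟩
    have h2 : (h.isSMC hS).tstr.heart B := by
      refine ⟨(h.le_iff hS B).2 ⟨hB.1, hB0⟩, ?_⟩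
      rw [ge_iff_orth]
      intro Y r hY
      refine le_zero_of hS.tstr (a := -1) (b := 0) (by norm_num) ?_ hB.2 r
      have h3 : (h.isSMC hS).tstr.le 0 (Y⟦(-1 : ℤ)⟧) := (le_of_shift _ (n := 0 - 1) (by ring)).2 hY
      exact (le_of_shift _ (n := -1) (by ring)).1 ((h.le_iff hS _).1 h3).1
    rw [(h.isSMC hS).tstr_heart] at h1 h2 ⊢
    exact Filt.ext₂ f g q hT h1 h2

end EGr
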