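import Pool.Agent.Lib_MP_a23b08_t1.TStr

/-!
# T1-Uniq: generalities on t-structures

A bounded t-structure is determined by its heart, a t-structure by `le 0`; objects are iterated extensions of shifts
of objects of the heart.
-/

set_option backward.defeqAttrib.useBackward true
set_option backward.isDefEq.respectTransparency false
set_option linter.unusedSectionVars false

open CategoryTheory CategoryTheory.Limits CategoryTheory.Triangulated CategoryTheory.Pretriangulated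
open ZeroObject

universe v u

namespace EGr

variable {D : Type u} [Category.{v} D] [Preadditive D] [HasZeroObject D] [HasShift D ℤ]
  [∀ n : ℤ, (shiftFunctor D n).Additive] [Pretriangulated D]

theorem le_zero_of (t : TStructure D) {a b : ℤ} (h : a < b) {X Y : D} (hX : t.le a X) (hY : t.ge b Y) (f : X ⟶ Y) :
    f = 0 :=
  t.zero_of_isLE_of_isGE f a b h ⟨hX⟩ ⟨hY⟩

theorem le_iff_shift (t : TStructure D) (n : ℤ) (X : D) : t.le n X ↔ t.le 0 (X⟦n⟧) := by
  rw [t.le_iff_isLE, t.le_iff_isLE, t.isLE_shift_iff X n n 0]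

theorem ge_iff_shift (t : TStructure D) (n : ℤ) (X : D) : t.ge n X ↔ t.ge 1 (X⟦n - 1⟧) := by
  rw [t.ge_iff_isGE, t.ge_iff_isGE, t.isGE_shift_iff X n (n - 1) 1]

theorem le_iff_orth (t : TStructure D) (n : ℤ) (X : D) : t.le n X ↔ ∀ (Y : D) (f : X ⟶ Y), t.ge (n + 1) Y → f = 0 := by
  rw [t.le_iff_isLE, t.isLE_iff_orthogonal n (n + 1) rfl]
  exact forall_congr' (fun Y => forall_congr' (fun f => by rw [t.ge_iff_isGE]))

theorem ge_iff_orth (t : TStructure D) (n : ℤ) (X : D) : t.ge n X ↔ ∀ (Y : D) (f : Y ⟶ X), t.le (n - 1) Y → f = 0 := by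
  rw [t.ge_iff_isGE, t.isGE_iff_orthogonal (n - 1) n (by ring)]
  exact forall_congr' (fun Y => forall_congr' (fun f => by rw [t.le_iff_isLE]))

theorem le_mono' (t : TStructure D) {a b : ℤ} (h : a ≤ b) {X : D} (hX : t.le a X) : t.le b X :=
  t.le_monotone h _ hX

theorem ge_anti' (t : TStructure D) {a b : ℤ} (h : a ≤ b) {X : D} (hX : t.ge b X) : t.ge a X :=
  t.ge_antitone h _ hX

theorem le_of_shift (t : TStructure D) {X : D} {n a n' : ℤ} (h : a + n' = n) : t.le n' (X⟦a⟧) ↔ t.le n X := by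
  rw [t.le_iff_isLE, t.le_iff_isLE, t.isLE_shift_iff X n a n' h]

theorem ge_of_shift (t : TStructure D) {X : D} {n a n' : ℤ} (h : a + n' = n) : t.ge n' (X⟦a⟧) ↔ t.ge n X := by
  rw [t.ge_iff_isGE, t.ge_iff_isGE, t.isGE_shift_iff X n a n' h]

/-- middle term of a triangle -/
theorem le₂ (t : TStructure D) (n : ℤ) {A B C : D} {f : A ⟶ B} {g : B ⟶ C} {h : C ⟶ A⟦(1 : ℤ)⟧}
    (hT : Triangle.mk f g h ∈ distTriang D) (hA : t.le n A) (hC : t.le n C) : t.le n B :=
  (t.isLE₂ _ hT n ⟨hA⟩ ⟨hC⟩).le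

theorem ge₂ (t : TStructure D) (n : ℤ) {A B C : D} {f : A ⟶ B} {g : B ⟶ C} {h : C ⟶ A⟦(1 : ℤ)⟧}
    (hT : Triangle.mk f g h ∈ distTriang D) (hA : t.ge n A) (hC : t.ge n C) : t.ge n B :=
  (t.isGE₂ _ hT n ⟨hA⟩ ⟨hC⟩).ge

/-- third term of a triangle: `B ≤ n` and `A ≤ n + 1` give `C ≤ n` -/
theorem le₃ (t : TStructure D) (n : ℤ) {A B C : D} {f : A ⟶ B} {g : B ⟶ C} {h : C ⟶ A⟦(1 : ℤ)⟧}
    (hT : Triangle.mk f g h ∈ distTriang D) (hA : t.le (n + 1) A) (hB : t.le n B) : t.le n C :=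
  le₂ t n (rot_of_distTriang _ hT) hB ((le_of_shift t (by ring)).2 hA)

/-- third term: `B ≥ n` and `A ≥ n + 1` give `C ≥ n` -/
theorem ge₃ (t : TStructure D) (n : ℤ) {A B C : D} {f : A ⟶ B} {g : B ⟶ C} {h : C ⟶ A⟦(1 : ℤ)⟧}
    (hT : Triangle.mk f g h ∈ distTriang D) (hA : t.ge (n + 1) A) (hB : t.ge n B) : t.ge n C :=
  ge₂ t n (rot_of_distTriang _ hT) hB ((ge_of_shift t (by ring)).2 hA)

/-- first term: `B ≥ n` and `C ≥ n - 1` give `A ≥ n` -/
theorem ge₁ (t : TStructure D) (n : ℤ) {A B C : D} {f : A ⟶ B} {g : B ⟶ C} {h : C ⟶ A⟦(1 : ℤ)⟧}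
    (hT : Triangle.mk f g h ∈ distTriang D) (hB : t.ge n B) (hC : t.ge (n - 1) C) : t.ge n A :=
  ge₂ t n (inv_rot_of_distTriang _ hT) ((ge_of_shift t (n := n - 1) (a := -1) (by ring)).2 hC) hB

/-- first term: `B ≤ n` and `C ≤ n - 1` give `A ≤ n` -/
theorem le₁ (t : TStructure D) (n : ℤ) {A B C : D} {f : A ⟶ B} {g : B ⟶ C} {h : C ⟶ A⟦(1 : ℤ)⟧}
    (hT : Triangle.mk f g h ∈ distTriang D) (hB : t.le n B) (hC : t.le (n - 1) C) : t.le n A :=
  le₂ t n (inv_rot_of_distTriang _ hT) ((le_of_shift t (n := n - 1) (a := -1) (by ring)).2 hC) hB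

/-- a t-structure is determined by `le 0` -/
theorem tstr_ext_le {t t' : TStructure D} (h : ∀ X, t.le 0 X ↔ t'.le 0 X) : t = t' := by
  have h1 : t.le = t'.le := by
    funext n X
    rw [le_iff_shift t n X, le_iff_shift t' n X]
    exact propext (h _)
  have h2 : t.ge = t'.ge := by
    funext n X
    apply propext
    rw [ge_iff_orth t n X, ge_iff_orth t' n X, h1]
  cases t; cases t'
  simp only at h1 h2
  subst h1 h2
  rfl

/-- comparison of t-structures -/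
theorem tstr_ext_le_ge {t t' : TStructure D} (h : ∀ X, t.le 0 X → t'.le 0 X) (h' : ∀ X, t.ge 1 X → t'.ge 1 X) :
    t = t' := by
  refine tstr_ext_le (fun X => ⟨h X, fun hX => ?_⟩)
  rw [le_iff_orth t 0 X]
  intro Y f hY
  exact le_zero_of t' (by norm_num : (0 : ℤ) < 1) hX (h' Y hY) f

/-- boundedness, as in `IsFiniteHeart` -/
def Bdd (t : TStructure D) : Prop := ∀ X : D, ∃ a b : ℤ, t.ge a X ∧ t.le b X

variable [IsTriangulated D]

/-- the objects in degrees `[a, a + n]` are iterated extensions of shifts of objects of the heart -/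
theorem filt_heart_aux (t : TStructure D) (n : ℕ) : ∀ (a : ℤ) (X : D), t.ge a X → t.le (a + n) X →
    Filt (fun Y => ∃ (H : D) (m : ℤ), t.heart H ∧ -(a + n) ≤ m ∧ m ≤ -a ∧ Nonempty (Y ≅ H⟦m⟧)) X := by
  induction n with
  | zero =>
    intro a X h1 h2
    refine Filt.of_mem ⟨X⟦a⟧, -a, ⟨?_, ?_⟩, by simp, le_refl _, ⟨((shiftEquiv D a).unitIso.app X)⟩⟩
    · exact (le_of_shift t (n := a) (a := a) (by ring)).2 (by simpa using h2)
    · exact (ge_of_shift t (n := a) (a := a) (by ring)).2 h1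
  | succ n ih =>
    intro a X h1 h2
    obtain ⟨U, V, hU, hV, f, g, h, hT⟩ := t.exists_triangle X a (a + 1) rfl
    have hU1 : t.ge a U := ge₁ t a hT h1 (ge_anti' t (by omega) hV)
    have hV1 : t.le (a + 1 + n) V := le₃ t _ hT (le_mono' t (by omega) hU) (by
      have e : a + 1 + (n : ℤ) = a + ((n + 1 : ℕ) : ℤ) := by push_cast; ring
      rw [e]; exact h2)
    have h3 := ih (a + 1) V hV hV1
    have h4 : Filt (fun Y => ∃ (H : D) (m : ℤ), t.heart H ∧ -(a + ((n + 1 : ℕ) : ℤ)) ≤ m ∧ m ≤ -a ∧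
        Nonempty (Y ≅ H⟦m⟧)) U := by
      refine Filt.of_mem ⟨U⟦a⟧, -a, ⟨?_, ?_⟩, by push_cast; omega, le_refl _,
        ⟨((shiftEquiv D a).unitIso.app U)⟩⟩
      · exact (le_of_shift t (n := a) (a := a) (by ring)).2 hU
      · exact (ge_of_shift t (n := a) (a := a) (by ring)).2 hU1
    refine Filt.ext₂ f g h hT h4 (Filt.mono ?_ h3)
    rintro Y ⟨H, m, hH, hm1, hm2, e⟩
    exact ⟨H, m, hH, by push_cast; omega, by omega, e⟩

theorem filt_heart (t : TStructure D) (a b : ℤ) {X : D} (h1 : t.ge a X) (h2 : t.le b X) :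
    Filt (fun Y => ∃ (H : D) (m : ℤ), t.heart H ∧ -b ≤ m ∧ m ≤ -a ∧ Nonempty (Y ≅ H⟦m⟧)) X := by
  by_cases hab : a ≤ b
  · have h3 := filt_heart_aux t (b - a).toNat a X h1 (by
      rw [Int.toNat_of_nonneg (by omega)]; simpa using h2)
    refine Filt.mono ?_ h3
    rintro Y ⟨H, m, hH, hm1, hm2, e⟩
    rw [Int.toNat_of_nonneg (by omega)] at hm1
    exact ⟨H, m, hH, by omega, hm2, e⟩
  · refine Filt.zero _ ?_
    rw [IsZero.iff_id_eq_zero]
    exact le_zero_of t (by omega) h2 h1 _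

theorem heart_shift_le {t t' : TStructure D} (h : ∀ X, t.heart X → t'.heart X) {H Y : D} {m n : ℤ} (hH : t.heart H)
    (hm : -n ≤ m) (e : Nonempty (Y ≅ H⟦m⟧)) : t'.le n Y := by
  obtain ⟨e⟩ := e
  refine (t'.le n).prop_of_iso e.symm ?_
  exact (le_of_shift t' (n := m + n) (by ring)).2 (le_mono' t' (by omega) (h _ hH).1)

theorem heart_shift_ge {t t' : TStructure D} (h : ∀ X, t.heart X → t'.heart X) {H Y : D} {m n : ℤ} (hH : t.heart H)
    (hm : m ≤ -n) (e : Nonempty (Y ≅ H⟦m⟧)) : t'.ge n Y := by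
  obtain ⟨e⟩ := e
  refine (t'.ge n).prop_of_iso e.symm ?_
  exact (ge_of_shift t' (n := m + n) (by ring)).2 (ge_anti' t' (by omega) (h _ hH).2)

theorem filt_le (t : TStructure D) (n : ℤ) {P : D → Prop} (h : ∀ X, P X → t.le n X) {X : D} (hX : Filt P X) : t.le n X :=
  Filt.le_of_closed (Q := t.le n) (fun X hX => by
    rw [t.le_iff_isLE]; exact t.isLE_of_isZero hX n) h (fun f g h hT h1 h2 => le₂ t n hT h1 h2) hX

theorem filt_ge (t : TStructure D) (n : ℤ) {P : D → Prop} (h : ∀ X, P X → t.ge n X) {X : D} (hX : Filt P X) : t.ge n X :=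
  Filt.le_of_closed (Q := t.ge n) (fun X hX => by
    rw [t.ge_iff_isGE]; exact t.isGE_of_isZero hX n) h (fun f g h hT h1 h2 => ge₂ t n hT h1 h2) hX

/-- a bounded t-structure is determined by its heart; one inclusion of hearts is enough -/
theorem tstr_ext_heart {t t' : TStructure D} (hb : Bdd t) (h : ∀ X, t.heart X → t'.heart X) : t = t' := by
  refine tstr_ext_le_ge (fun X hX => ?_) (fun X hX => ?_)
  · obtain ⟨a, b, ha, _⟩ := hb X
    refine filt_le t' 0 ?_ (filt_heart t a 0 ha hX)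
    rintro Y ⟨H, m, hH, hm1, hm2, e⟩
    exact heart_shift_le h hH (by omega) e
  · obtain ⟨a, b, _, hb'⟩ := hb X
    refine filt_ge t' 1 ?_ (filt_heart t 1 b hX hb')
    rintro Y ⟨H, m, hH, hm1, hm2, e⟩
    exact heart_shift_ge h hH (by omega) e

end EGr
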