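import Pool.Agent.Lib_MP_a23b08_t1.Mut

/-!
# T1-Univ: existence of the universal extension, with its class
-/

set_option backward.defeqAttrib.useBackward true
set_option backward.isDefEq.respectTransparency false
set_option linter.unusedSectionVars false
set_option linter.unusedVariables false

open CategoryTheory CategoryTheory.Limits CategoryTheory.Triangulated CategoryTheory.Pretriangulated
open ZeroObject

universe v u

namespace EGr

variable (k : Type) [Field k] {D : Type u} [Category.{v} D] [Preadditive D] [HasZeroObject D] [HasShift D ℤ]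
  [∀ n : ℤ, (shiftFunctor D n).Additive] [Pretriangulated D] [IsTriangulated D] [Linear k D]

/-- over an algebraically closed field a finite-dimensional endomorphism algebra all of whose elements are zero or
invertible consists of the scalars -/
theorem endo_scalar [IsAlgClosed k] {X : D} [Module.Finite k (X ⟶ X)] (h : ∀ f : X ⟶ X, f = 0 ∨ IsIso f) (f : X ⟶ X) :
    ∃ c : k, f = c • 𝟙 X := by
  by_cases hX : IsZero X
  · exact ⟨0, hX.eq_of_src _ _⟩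
  have : Nontrivial (X ⟶ X) := ⟨𝟙 X, 0, fun h0 => hX ((IsZero.iff_id_eq_zero X).2 h0)⟩
  obtain ⟨c, hc⟩ := Module.End.exists_eigenvalue (K := k) (Linear.leftComp k X f : Module.End k (X ⟶ X))
  obtain ⟨g, hg⟩ := hc.exists_hasEigenvector
  refine ⟨c, ?_⟩
  have h1 : f ≫ g = c • g := hg.apply_eq_smul
  have h2 : (f - c • 𝟙 X) ≫ g = 0 := by
    rw [Preadditive.sub_comp, h1, Linear.smul_comp, Category.id_comp, sub_self]
  rcases h (f - c • 𝟙 X) with h3 | h3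
  · exact sub_eq_zero.1 h3
  · exfalso
    apply hg.2
    rw [← cancel_epi (f - c • 𝟙 X), h2, comp_zero]

/-- one step: the fibre of a nonzero map `g : X ⟶ A⟦1⟧` -/
theorem univ_step {A X : D} (hA0 : ∀ f : A ⟶ A⟦(1 : ℤ)⟧, f = 0)
    (hA1 : ∀ f : A⟦(1 : ℤ)⟧ ⟶ A⟦(1 : ℤ)⟧, ∃ c : k, f = c • 𝟙 (A⟦(1 : ℤ)⟧))
    (hX : ∀ f : X ⟶ A, f = 0) (g : X ⟶ A⟦(1 : ℤ)⟧) (hg : g ≠ 0) {Y : D} {b : Y ⟶ X} {d : A⟦(1 : ℤ)⟧ ⟶ Y⟦(1 : ℤ)⟧}
    (hT : Triangle.mk b g d ∈ distTriang D) :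
    (∀ f : Y ⟶ A, f = 0) ∧ (∀ f : Y ⟶ A⟦(1 : ℤ)⟧, ∃ f' : X ⟶ A⟦(1 : ℤ)⟧, f = b ≫ f') ∧
      ∀ f : X ⟶ A⟦(1 : ℤ)⟧, b ≫ f = 0 → ∃ c : k, f = c • g := by
  refine ⟨fun f => ?_, fun f => ?_, fun f hf => ?_⟩
  · have h1 : d ≫ f⟦(1 : ℤ)⟧' = 0 := by
      obtain ⟨c, hc⟩ := hA1 (d ≫ f⟦(1 : ℤ)⟧')
      have h2 : g ≫ d = 0 := comp_distTriang_mor_zero₂₃ _ hT
      have h3 : c • g = 0 := by
        have : g ≫ (d ≫ f⟦(1 : ℤ)⟧') = 0 := by rw [← Category.assoc, h2, zero_comp]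
        rw [hc, Linear.comp_smul, Category.comp_id] at this
        exact this
      rcases smul_eq_zero.1 h3 with h4 | h4
      · rw [hc, h4, zero_smul]
      · exact (hg h4).elim
    obtain ⟨g', hg'⟩ := Triangle.yoneda_exact₂ _ (rot_of_distTriang _ (rot_of_distTriang _ hT)) (f⟦(1 : ℤ)⟧') h1
    have h5 : g' = 0 := shift_hom_zero' hX g'
    apply (shiftFunctor D (1 : ℤ)).map_injective
    rw [hg', h5, Functor.map_zero]
    exact comp_zero
  · obtain ⟨f', hf'⟩ := Triangle.yoneda_exact₂ _ (inv_rot_of_distTriang _ hT) f (by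
      have h6 : ∀ r : (A⟦(1 : ℤ)⟧)⟦(-1 : ℤ)⟧ ⟶ A⟦(1 : ℤ)⟧, r = 0 := by
        intro r
        let e : A ≅ (A⟦(1 : ℤ)⟧)⟦(-1 : ℤ)⟧ := (shiftEquiv D (1 : ℤ)).unitIso.app A
        rw [← cancel_epi e.hom, hA0 (e.hom ≫ r), comp_zero]
      exact h6 _)
    exact ⟨f', hf'⟩
  · obtain ⟨r, hr⟩ := Triangle.yoneda_exact₂ _ hT f hf
    obtain ⟨c, hc⟩ := hA1 r
    exact ⟨c, by rw [hr, hc, Linear.comp_smul]; exact congrArg _ (Category.comp_id g)⟩

/-- additive on distinguished triangles -/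
def AddZ (cls : D → ℤ) : Prop := ∀ T ∈ distTriang D, cls T.obj₂ = cls T.obj₁ + cls T.obj₃

theorem AddZ.zero {cls : D → ℤ} (h : AddZ cls) {X : D} (hX : IsZero X) : cls X = 0 := by
  have h1 : Triangle.mk (𝟙 X) (0 : X ⟶ X) (0 : X ⟶ X⟦(1 : ℤ)⟧) ∈ distTriang D := by
    refine isomorphic_distinguished _ (contractible_distinguished X) _ ?_
    exact Triangle.isoMk _ _ (Iso.refl _) (Iso.refl _) (IsZero.iso hX (isZero_zero D))
      (by simp) (by simp) (by simp)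
  have h2 : cls X = cls X + cls X := h _ h1
  omega

theorem AddZ.shift_one {cls : D → ℤ} (h : AddZ cls) (X : D) : cls (X⟦(1 : ℤ)⟧) = - cls X := by
  have h1 : cls (0 : D) = cls X + cls (X⟦(1 : ℤ)⟧) := h _ (rot_of_distTriang _ (contractible_distinguished X))
  have h2 := h.zero (isZero_zero D)
  omega

/-- existence of the universal extension -/
theorem univ_ext {A : D} (hA0 : ∀ f : A ⟶ A⟦(1 : ℤ)⟧, f = 0)
    (hA1 : ∀ f : A⟦(1 : ℤ)⟧ ⟶ A⟦(1 : ℤ)⟧, ∃ c : k, f = c • 𝟙 (A⟦(1 : ℤ)⟧)) (n : ℕ) :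
    ∀ (X : D), (∀ f : X ⟶ A, f = 0) → Module.Finite k (X ⟶ A⟦(1 : ℤ)⟧) →
      Module.finrank k (X ⟶ A⟦(1 : ℤ)⟧) = n →
    ∃ (E Y : D) (a : E ⟶ Y) (b : Y ⟶ X) (c : X ⟶ E⟦(1 : ℤ)⟧), Triangle.mk a b c ∈ distTriang D ∧
      Filt (isoTo A) E ∧ (∀ f : Y ⟶ A, f = 0) ∧ (∀ f : Y ⟶ A⟦(1 : ℤ)⟧, f = 0) ∧
      ∀ cls : D → ℤ, AddZ cls → cls Y = cls X + n • cls A := by
  induction n with
  | zero =>
    intro X hX hfin hn
    have hz : ∀ f : X ⟶ A⟦(1 : ℤ)⟧, f = 0 := by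
      intro f
      have := Module.finrank_zero_iff.1 hn
      exact Subsingleton.elim _ _
    refine ⟨(0 : D)⟦(-1 : ℤ)⟧, X, _, _, _, inv_rot_of_distTriang _ (contractible_distinguished X), ?_, hX, hz, ?_⟩
    · exact Filt.zero _ ((shiftFunctor D (-1 : ℤ)).map_isZero (isZero_zero D))
    · intro cls _
      simp
  | succ n ih =>
    intro X hX hfin hn
    have hex : ∃ g : X ⟶ A⟦(1 : ℤ)⟧, g ≠ 0 := by
      by_contra hcon
      push Not at hcon
      have : Subsingleton (X ⟶ A⟦(1 : ℤ)⟧) := ⟨fun a b => by rw [hcon a, hcon b]⟩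
      rw [Module.finrank_zero_of_subsingleton] at hn
      omega
    obtain ⟨g, hg⟩ := hex
    obtain ⟨Y, b, d, hT⟩ := distinguished_cocone_triangle₁ g
    obtain ⟨h1, h2, h3⟩ := univ_step k hA0 hA1 hX g hg hT
    let L : (X ⟶ A⟦(1 : ℤ)⟧) →ₗ[k] (Y ⟶ A⟦(1 : ℤ)⟧) := Linear.leftComp k _ b
    have hL : Function.Surjective L := fun f => by
      obtain ⟨f', hf'⟩ := h2 f
      exact ⟨f', hf'.symm⟩
    have hfin' : Module.Finite k (Y ⟶ A⟦(1 : ℤ)⟧) := Module.Finite.of_surjective L hL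
    have hker : LinearMap.ker L = Submodule.span k {g} := by
      ext f
      rw [LinearMap.mem_ker, Submodule.mem_span_singleton]
      constructor
      · intro hf
        obtain ⟨c, hc⟩ := h3 f hf
        exact ⟨c, hc.symm⟩
      · rintro ⟨c, rfl⟩
        have : b ≫ g = 0 := comp_distTriang_mor_zero₁₂ _ hT
        change b ≫ (c • g) = 0
        rw [Linear.comp_smul, this, smul_zero]
    have hdim := LinearMap.finrank_range_add_finrank_ker L
    rw [LinearMap.range_eq_top.2 hL, finrank_top, hker, finrank_span_singleton hg, hn] at hdim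
    obtain ⟨E, Z, a', b', c', hT', hE, hZ0, hZ1, hcls⟩ := ih Y h1 hfin' (by omega)
    -- the composite `Z ⟶ Y ⟶ X`
    obtain ⟨F, a'', c'', hT''⟩ := distinguished_cocone_triangle₁ (b' ≫ b)
    let o := someOctahedron' rfl hT' (inv_rot_of_distTriang _ hT) hT''
    refine ⟨F, Z, a'', b' ≫ b, c'', hT'', ?_, hZ0, hZ1, ?_⟩
    · refine Filt.ext _ _ _ _ _ _ o.mem hE ?_
      exact ⟨((shiftEquiv D (1 : ℤ)).unitIso.app A).symm⟩
    · intro cls hcls'
      have h4 : cls X = cls Y + cls (A⟦(1 : ℤ)⟧) := hcls' _ hT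
      rw [hcls'.shift_one] at h4
      rw [hcls cls hcls', succ_nsmul]
      simp only [nsmul_eq_mul] at *
      linarith

end EGr
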